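import Pool.Agent.Lib.MP_d439b2_co.CH.Spec

/-!
# MP_d439b2_co, CH/Ab: the abstract cut (helper82)
-/

set_option autoImplicit false

namespace Pool.Agent.MPd439b2.CH

open Pool.Agent.MPd439b2
open Pool.Agent.MPd439b2.Rep
open Pool.Agent.MPd439b2.F9
open Pool.Agent.MPd439b2.A0

theorem cAb (hC : S_Cd) (hN : S_Ne) (hT : S_Ty) : S_Ab := by
  intro V _ G C L Z P K hU hP h4 h3 hK hTK hCC hBB hLZ hNZ
  obtain ⟨hc1, hc2⟩ := hC V G L
  obtain ⟨LF, hLF⟩ : ∃ LF : Set V, LF = {x | ∃ K', IsComp G L K' ∧ NK G C K' ⊆ NK G C K ∧ x ∈ K'} :=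
    ⟨_, rfl⟩
  obtain ⟨RT, hRT⟩ : ∃ RT : Set V, RT = {x | ∃ K', IsComp G L K' ∧ NK G C K ⊂ NK G C K' ∧ x ∈ K'} :=
    ⟨_, rfl⟩
  have mLF : ∀ x, x ∈ LF ↔ ∃ K', IsComp G L K' ∧ NK G C K' ⊆ NK G C K ∧ x ∈ K' := by
    intro x
    rw [hLF]
    exact Iff.rfl
  have mRT : ∀ x, x ∈ RT ↔ ∃ K', IsComp G L K' ∧ NK G C K ⊂ NK G C K' ∧ x ∈ K' := by
    intro x
    rw [hRT]
    exact Iff.rfl
  have f0 : ∀ x ∈ L, x ∈ LF ∨ x ∈ RT := by
    intro x hx
    obtain ⟨K', hK', hxK'⟩ := hc1 x hx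
    by_cases h1 : NK G C K' ⊆ NK G C K
    · exact Or.inl ((mLF x).2 ⟨K', hK', h1, hxK'⟩)
    · refine Or.inr ((mRT x).2 ⟨K', hK', ⟨?_, h1⟩, hxK'⟩)
      rcases (hN V G C L h4 K K' hK hK').1 with h2 | h2
      · exact h2
      · exact absurd h2 h1
  have fLR : ∀ x ∈ LF, ∀ y ∈ RT, ¬ G.Adj x y := by
    intro x hx y hy hxy
    obtain ⟨K', hK', hs, hxK'⟩ := (mLF x).1 hx
    obtain ⟨K'', hK'', hs', hyK''⟩ := (mRT y).1 hy
    have hne : K' ≠ K'' := by
      rintro rfl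
      exact hs'.2 hs
    exact (hc2 K' K'' hK' hK'' hne).2 ⟨x, hxK', y, hyK'', hxy⟩
  have fLC : ∀ x ∈ LF, ∀ y ∈ C \ NK G C K, ¬ G.Adj x y := by
    intro x hx y hy hxy
    obtain ⟨K', hK', hs, hxK'⟩ := (mLF x).1 hx
    exact hy.2 (hs ⟨hy.1, x, hxK', hxy.symm⟩)
  have fLZ : ∀ x ∈ LF, ∀ y ∈ Z, ¬ G.Adj x y := by
    intro x hx y hy
    obtain ⟨K', hK', hs, hxK'⟩ := (mLF x).1 hx
    exact hLZ K' hK' hs x hxK' y hy
  have fNR : ∀ c ∈ NK G C K \ BB G C L K, ∀ y ∈ RT, G.Adj c y := by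
    intro c hc y hy
    obtain ⟨K', hK', hs, hyK'⟩ := (mRT y).1 hy
    by_contra hcon
    exact hc.2 ⟨hc.1, K', hK', hs, fun h1 => hcon (h1.2 y hyK')⟩
  obtain ⟨D, hD⟩ : ∃ D : Set V, D = RT ∪ (C \ NK G C K ∪ Z) := ⟨_, rfl⟩
  have r1 : LK.rk G LF D = 0 := by
    refine rk_anti G fun a ha b hb => ?_
    rw [hD] at hb
    rcases hb with hb | hb | hb
    · exact fLR a ha b hb
    · exact fLC a ha b hb
    · exact fLZ a ha b hb
  have r2 : LK.rk G (NK G C K \ BB G C L K) D ≤ 1 := by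
    refine rk_comp G fun a ha b hb => ?_
    rw [hD] at hb
    rcases hb with hb | hb | hb
    · exact fNR a ha b hb
    · exact hCC a ha.1 b hb.1 hb.2
    · exact hNZ a ha.1 b hb
  have mBN : BB G C L K ⊆ NK G C K := fun c hc => hc.1
  rcases hT V G C L K h4 h3 hK hTK with hA | ⟨K₁, hK₁, hs₁, hA⟩
  · refine ⟨LF ∪ NK G C K, fun K' hK' hs x hx => Or.inl ((mLF x).2 ⟨K', hK', hs, hx⟩), ?_, ?_⟩
    · rintro x (hx | hx)
      · exact Or.inr ((mLF x).1 hx)
      · exact Or.inl hx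
    · have h1 : (LF ∪ NK G C K)ᶜ ⊆ D ∪ P := by
        intro x hx
        have hx1 : x ∉ LF := fun h2 => hx (Or.inl h2)
        have hx2 : x ∉ NK G C K := fun h2 => hx (Or.inr h2)
        have hx3 : x ∈ C ∪ L ∪ Z ∪ P := by
          rw [hU]
          trivial
        rw [hD]
        rcases hx3 with ((h2 | h2) | h2) | h2
        · exact Or.inl (Or.inr (Or.inl ⟨h2, hx2⟩))
        · rcases f0 x h2 with h3 | h3
          · exact absurd h3 hx1
          · exact Or.inl (Or.inl h3)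
        · exact Or.inl (Or.inr (Or.inr h2))
        · exact Or.inr h2
      have h2 : LK.cr G (LF ∪ NK G C K) ≤ LK.rk G (LF ∪ NK G C K) (D ∪ P) :=
        rk_mono G le_rfl h1
      have h3 := rk_union_right G (LF ∪ NK G C K) D P
      have h4' := (rk_card_right G (LF ∪ NK G C K) P).trans hP
      have h5 := rk_union G LF (NK G C K) D
      have h6 : LK.rk G (NK G C K) D ≤
          LK.rk G ((NK G C K \ BB G C L K) ∪ BB G C L K) D := by
        refine rk_mono G (fun x hx => ?_) le_rfl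
        by_cases hxB : x ∈ BB G C L K
        · exact Or.inr hxB
        · exact Or.inl ⟨hx, hxB⟩
      have h7 := rk_union G (NK G C K \ BB G C L K) (BB G C L K) D
      have h8 : LK.rk G (BB G C L K) D ≤
          LK.rk G (BB G C L K) RT + LK.rk G (BB G C L K) (C \ NK G C K ∪ Z) := by
        rw [hD]
        exact rk_union_right G (BB G C L K) RT (C \ NK G C K ∪ Z)
      have h9 : LK.rk G (BB G C L K) (C \ NK G C K ∪ Z) ≤ 1 := by
        refine rk_comp G fun a ha b hb => ?_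
        rcases hb with hb | hb
        · exact hCC a (mBN ha) b hb.1 hb.2
        · exact hNZ a (mBN ha) b hb
      have h10 : LK.rk G (BB G C L K) RT ≤ 1 := by
        refine rk_col G fun b hb => ?_
        obtain ⟨K', hK', hs, hbK'⟩ := (mRT b).1 hb
        have hne : K ≠ K' := by
          rintro rfl
          exact hs.2 le_rfl
        have hbK : b ∉ K := fun h11 =>
          (Set.disjoint_left.1 (hc2 K K' hK hK' hne).1) h11 hbK'
        by_cases h11 : ∃ a ∈ BB G C L K, G.Adj a b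
        · obtain ⟨a, ha, hab⟩ := h11
          exact Or.inl fun a' ha' => (hA a ha a' ha' b (hK'.1 hbK') hbK).1 hab
        · exact Or.inr fun a ha hab => h11 ⟨a, ha, hab⟩
      omega
  · refine ⟨LF ∪ (NK G C K \ BB G C L K),
      fun K' hK' hs x hx => Or.inl ((mLF x).2 ⟨K', hK', hs, hx⟩), ?_, ?_⟩
    · rintro x (hx | hx)
      · exact Or.inr ((mLF x).1 hx)
      · exact Or.inl hx.1
    · have h1 : (LF ∪ (NK G C K \ BB G C L K))ᶜ ⊆ D ∪ (BB G C L K ∪ P) := by
        intro x hx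
        have hx1 : x ∉ LF := fun h2 => hx (Or.inl h2)
        by_cases hxB : x ∈ BB G C L K
        · exact Or.inr (Or.inl hxB)
        have hx2 : x ∉ NK G C K := fun h2 => hx (Or.inr ⟨h2, hxB⟩)
        have hx3 : x ∈ C ∪ L ∪ Z ∪ P := by
          rw [hU]
          trivial
        rw [hD]
        rcases hx3 with ((h2 | h2) | h2) | h2
        · exact Or.inl (Or.inr (Or.inl ⟨h2, hx2⟩))
        · rcases f0 x h2 with h3 | h3
          · exact absurd h3 hx1
          · exact Or.inl (Or.inl h3)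
        · exact Or.inl (Or.inr (Or.inr h2))
        · exact Or.inr (Or.inr h2)
      have h2 : LK.cr G (LF ∪ (NK G C K \ BB G C L K)) ≤
          LK.rk G (LF ∪ (NK G C K \ BB G C L K)) (D ∪ (BB G C L K ∪ P)) := rk_mono G le_rfl h1
      have h3 := rk_union_right G (LF ∪ (NK G C K \ BB G C L K)) D (BB G C L K ∪ P)
      have h3' := rk_union_right G (LF ∪ (NK G C K \ BB G C L K)) (BB G C L K) P
      have h4' := (rk_card_right G (LF ∪ (NK G C K \ BB G C L K)) P).trans hP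
      have h5 := rk_union G LF (NK G C K \ BB G C L K) D
      have h6 := rk_union G LF (NK G C K \ BB G C L K) (BB G C L K)
      have h7 : LK.rk G (NK G C K \ BB G C L K) (BB G C L K) ≤ 1 :=
        rk_comp G fun a ha b hb => hBB b hb a ha.1 ha.2
      have h8 : LK.rk G LF (BB G C L K) ≤ 1 := by
        refine rk_row G fun a ha => ?_
        obtain ⟨K', hK', hs, haK'⟩ := (mLF a).1 ha
        have hne : K' ≠ K₁ := by
          rintro rfl
          exact hs₁.2 hs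
        have haK : a ∉ K₁ := fun h11 =>
          (Set.disjoint_left.1 (hc2 K' K₁ hK' hK₁ hne).1) haK' h11
        by_cases h11 : ∃ b ∈ BB G C L K, G.Adj a b
        · obtain ⟨b, hb, hab⟩ := h11
          exact Or.inl fun b' hb' => ((hA b hb b' hb' a (hK'.1 haK') haK).1 hab.symm).symm
        · exact Or.inr fun b hb hab => h11 ⟨b, hb, hab⟩
      omega

end Pool.Agent.MPd439b2.CH
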