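import Pool.Agent.Lib.MP_d439b2_co.A0.M1

/-!
# MP_d439b2_co, CH: chains for `K4:0,1` (note 2883 of helper53), definitions and basic lemmas

`Ch G n v e`: a CHAIN of length `n`: the `v i` are a clique, `e false i`, `e true i` are adjacent, there are no
other edges between the `e s i`, and `v i` sees `e s j` iff `i < j`.
`Up v e i u`: `u` sees `v i` and misses `e s i`; `Co v e κ i u`: `u` sees (`κ = true`) resp. misses (`κ = false`)
all three of `v i`, `e s i`.  `Pos G n v e u p κ`: `u` is `Up` at all `i < p` and `Co κ` at all `i > p`: the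
POSITION of `u` is `p`, its class is `κ`.
`CC`: a CLEAN CHAIN: every vertex has a position, and vertices whose positions differ by at least two are
adjacent iff the class of the lower one is `true`.
-/

set_option autoImplicit false

namespace Pool.Agent.MPd439b2.CH

open Pool.Agent.MPd439b2
open Pool.Agent.MPd439b2.Rep
open Pool.Agent.MPd439b2.F9
open Pool.Agent.MPd439b2.A0

variable {V : Type}

/-- a chain of length `n` -/
structure Ch (G : SimpleGraph V) (n : ℕ) (v : ℕ → V) (e : Bool → ℕ → V) : Prop where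
  vv : ∀ i < n, ∀ j < n, i ≠ j → G.Adj (v i) (v j)
  ee : ∀ i < n, ∀ j < n, ∀ s t : Bool, (G.Adj (e s i) (e t j) ↔ i = j ∧ s ≠ t)
  ve : ∀ i < n, ∀ j < n, ∀ s : Bool, (G.Adj (v i) (e s j) ↔ i < j)

/-- `u` sees `v i` and misses `e s i` -/
def Up (G : SimpleGraph V) (v : ℕ → V) (e : Bool → ℕ → V) (i : ℕ) (u : V) : Prop :=
  G.Adj (v i) u ∧ ∀ s, ¬ G.Adj (e s i) u

/-- `u` sees resp. misses all of `v i`, `e s i` -/
def Co (G : SimpleGraph V) (v : ℕ → V) (e : Bool → ℕ → V) (κ : Bool) (i : ℕ) (u : V) : Prop :=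
  (G.Adj (v i) u ↔ κ = true) ∧ ∀ s, (G.Adj (e s i) u ↔ κ = true)

/-- the position of `u` is `p`, its class is `κ` -/
def Pos (G : SimpleGraph V) (n : ℕ) (v : ℕ → V) (e : Bool → ℕ → V) (u : V) (p : ℕ) (κ : Bool) :
    Prop :=
  (∀ i < n, i < p → Up G v e i u) ∧ ∀ i < n, p < i → Co G v e κ i u

/-- a clean chain -/
structure CC (G : SimpleGraph V) (n : ℕ) (v : ℕ → V) (e : Bool → ℕ → V) (q : V → ℕ)
    (κ : V → Bool) : Prop where
  ch : Ch G n v e
  pos : ∀ u, Pos G n v e u (q u) (κ u)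
  qn : ∀ u, q u ≤ n
  far : ∀ u u', q u + 2 ≤ q u' → (G.Adj u u' ↔ κ u = true)

/-- `u` is none of the vertices of the chain -/
def Out (n : ℕ) (v : ℕ → V) (e : Bool → ℕ → V) (u : V) : Prop :=
  ∀ i < n, u ≠ v i ∧ ∀ s, u ≠ e s i

namespace Ch

variable {G : SimpleGraph V} {n : ℕ} {v : ℕ → V} {e : Bool → ℕ → V}

theorem nvv (h : Ch G n v e) {i j : ℕ} (hi : i < n) (hj : j < n) (hij : i ≠ j) : v i ≠ v j :=
  (h.vv i hi j hj hij).ne

theorem adj_e (h : Ch G n v e) {i : ℕ} (hi : i < n) (s : Bool) : G.Adj (e s i) (e (!s) i) :=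
  (h.ee i hi i hi s (!s)).2 ⟨rfl, by cases s <;> decide⟩

theorem adj_ft (h : Ch G n v e) {i : ℕ} (hi : i < n) : G.Adj (e false i) (e true i) :=
  h.adj_e hi false

theorem nve (h : Ch G n v e) {i j : ℕ} (hi : i < n) (hj : j < n) (s : Bool) : v i ≠ e s j := by
  intro hh
  have h1 : G.Adj (v i) (e (!s) j) := by
    rw [hh]
    exact h.adj_e hj s
  have h2 := (h.ve i hi j hj (!s)).1 h1
  have h3 := h.vv i hi j hj h2.ne
  rw [hh] at h3
  exact lt_irrefl _ ((h.ve j hj j hj s).1 h3.symm)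

theorem nee (h : Ch G n v e) {i j : ℕ} (hi : i < n) (hj : j < n) {s t : Bool} (hij : i ≠ j) :
    e s i ≠ e t j := by
  intro hh
  rcases lt_or_gt_of_ne hij with h1 | h1
  · have h2 := (h.ve i hi j hj t).2 h1
    rw [← hh] at h2
    exact lt_irrefl _ ((h.ve i hi i hi s).1 h2)
  · have h2 := (h.ve j hj i hi s).2 h1
    rw [hh] at h2
    exact lt_irrefl _ ((h.ve j hj j hj t).1 h2)

theorem ft (h : Ch G n v e) {i : ℕ} (hi : i < n) (s : Bool) : e s i ≠ e (!s) i :=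
  (h.adj_e hi s).ne

theorem ev (h : Ch G n v e) {i j : ℕ} (hi : i < n) (hj : j < n) (s : Bool) :
    G.Adj (e s j) (v i) ↔ i < j := by
  rw [SimpleGraph.adj_comm]
  exact h.ve i hi j hj s

/-- a chain on a subsequence -/
theorem comp (h : Ch G n v e) {m : ℕ} (σ : ℕ → ℕ) (h1 : ∀ i < m, σ i < n)
    (h2 : ∀ i < m, ∀ j < m, i < j → σ i < σ j) :
    Ch G m (fun i => v (σ i)) (fun s i => e s (σ i)) := by
  have hinj : ∀ i < m, ∀ j < m, (σ i = σ j ↔ i = j) := by
    intro i hi j hj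
    constructor
    · intro hh
      rcases lt_trichotomy i j with h3 | h3 | h3
      · exact absurd hh (h2 i hi j hj h3).ne
      · exact h3
      · exact absurd hh (h2 j hj i hi h3).ne'
    · intro hh
      rw [hh]
  have hlt : ∀ i < m, ∀ j < m, (σ i < σ j ↔ i < j) := by
    intro i hi j hj
    constructor
    · intro hh
      rcases lt_trichotomy i j with h3 | h3 | h3
      · exact h3
      · rw [h3] at hh
        exact absurd hh (lt_irrefl _)
      · exact absurd hh (h2 j hj i hi h3).asymm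
    · exact h2 i hi j hj
  refine ⟨fun i hi j hj hij => ?_, fun i hi j hj s t => ?_, fun i hi j hj s => ?_⟩
  · exact h.vv _ (h1 i hi) _ (h1 j hj) fun h3 => hij ((hinj i hi j hj).1 h3)
  · rw [h.ee _ (h1 i hi) _ (h1 j hj), hinj i hi j hj]
  · rw [h.ve _ (h1 i hi) _ (h1 j hj), hlt i hi j hj]

end Ch

/-! ### small models -/

theorem conn_pair' {G : SimpleGraph V} {a a' : V} (h : a = a' ∨ G.Adj a a') : Conn G {a, a'} := by
  rcases h with h | h
  · subst h
    rw [Set.pair_eq_singleton]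
    exact Conn.singleton G a
  · exact Conn.pair h

/-- **ENGINE.** A model of `K4:0,1` with the branch sets `{a, a'}`, `{b, b'}`, `{c}`, `{d}` (the clique) and the
pendant vertices `p` (at `{a, a'}`) and `r` (at `{b, b'}`); `a = a'` and `b = b'` are allowed. -/
theorem eng {G : SimpleGraph V} {a a' b b' c d p r : V}
    (ha : a = a' ∨ G.Adj a a') (hb : b = b' ∨ G.Adj b b')
    (hab : G.Adj a b ∨ G.Adj a b' ∨ G.Adj a' b ∨ G.Adj a' b')
    (hac : G.Adj a c ∨ G.Adj a' c) (had : G.Adj a d ∨ G.Adj a' d)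
    (hbc : G.Adj b c ∨ G.Adj b' c) (hbd : G.Adj b d ∨ G.Adj b' d) (hcd : G.Adj c d)
    (hap : G.Adj a p ∨ G.Adj a' p) (hbr : G.Adj b r ∨ G.Adj b' r)
    (nar : ¬ G.Adj a r) (nar' : ¬ G.Adj a' r) (nbp : ¬ G.Adj b p) (nbp' : ¬ G.Adj b' p)
    (ncp : ¬ G.Adj c p) (ncr : ¬ G.Adj c r) (ndp : ¬ G.Adj d p) (ndr : ¬ G.Adj d r)
    (npr : ¬ G.Adj p r)
    (dab : a ≠ b ∧ a ≠ b' ∧ a' ≠ b ∧ a' ≠ b') (dac : a ≠ c ∧ a' ≠ c) (dad : a ≠ d ∧ a' ≠ d)
    (dap : a ≠ p ∧ a' ≠ p) (dar : a ≠ r ∧ a' ≠ r) (dbc : b ≠ c ∧ b' ≠ c) (dbd : b ≠ d ∧ b' ≠ d)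
    (dbp : b ≠ p ∧ b' ≠ p) (dbr : b ≠ r ∧ b' ≠ r) (dcp : c ≠ p) (dcr : c ≠ r) (ddp : d ≠ p)
    (ddr : d ≠ r) : IMS K401 G Set.univ := by
  have dpr : p ≠ r := by
    rintro rfl
    exact hap.elim nar nar'
  have t2 : ∀ {x x' y : V}, (G.Adj x y ∨ G.Adj x' y) → Tch G {x, x'} {y} := by
    intro x x' y h
    rcases h with h | h
    · exact ⟨x, Or.inl rfl, y, rfl, h⟩
    · exact ⟨x', Or.inr rfl, y, rfl, h⟩
  have n2 : ∀ {x x' y : V}, ¬ G.Adj x y → ¬ G.Adj x' y → ¬ Tch G {x, x'} {y} := by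
    rintro x x' y h1 h2 ⟨z, hz | hz, y', hy', h⟩
    · rw [Set.mem_singleton_iff] at hy'
      subst hz hy'
      exact h1 h
    · rw [Set.mem_singleton_iff] at hy' hz
      subst hz hy'
      exact h2 h
  have n1 : ∀ {x y : V}, ¬ G.Adj x y → ¬ Tch G {x} {y} := by
    rintro x y h1 ⟨z, hz, y', hy', h⟩
    rw [Set.mem_singleton_iff] at hy' hz
    subst hz hy'
    exact h1 h
  have d2 : ∀ {x x' y : V}, x ≠ y ∧ x' ≠ y → Disjoint ({x, x'} : Set V) {y} := by
    intro x x' y h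
    rw [Set.disjoint_singleton_right]
    rintro (h1 | h1)
    · exact h.1 h1.symm
    · exact h.2 h1.symm
  have d1 : ∀ {x y : V}, x ≠ y → Disjoint ({x} : Set V) {y} := by
    intro x y h
    exact Set.disjoint_singleton.2 h
  have dAB : Disjoint ({a, a'} : Set V) {b, b'} := by
    rw [Set.disjoint_left]
    rintro x (hx | hx) (hy | hy)
    · exact dab.1 (hx ▸ hy)
    · exact dab.2.1 (hx ▸ hy)
    · exact dab.2.2.1 (hx ▸ hy)
    · exact dab.2.2.2 (hx ▸ hy)
  have tAB : Tch G ({a, a'} : Set V) {b, b'} := by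
    rcases hab with h | h | h | h
    · exact ⟨a, Or.inl rfl, b, Or.inl rfl, h⟩
    · exact ⟨a, Or.inl rfl, b', Or.inr rfl, h⟩
    · exact ⟨a', Or.inr rfl, b, Or.inl rfl, h⟩
    · exact ⟨a', Or.inr rfl, b', Or.inr rfl, h⟩
  exact aM1 V G {a, a'} {b, b'} {c} {d} {p} {r} (conn_pair' ha) (conn_pair' hb)
    (Conn.singleton G c) (Conn.singleton G d) (Conn.singleton G p) (Conn.singleton G r)
    dAB (d2 dac) (d2 dad) (d2 dap) (d2 dar) (d2 dbc) (d2 dbd) (d2 dbp) (d2 dbr)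
    (d1 hcd.ne) (d1 dcp) (d1 dcr) (d1 ddp) (d1 ddr) (d1 dpr)
    tAB (t2 hac) (t2 had) (t2 hbc) (t2 hbd) ⟨c, rfl, d, rfl, hcd⟩ (t2 hap) (t2 hbr)
    (n2 nar nar') (n2 nbp nbp') (n1 ncp) (n1 ncr) (n1 ndp) (n1 ndr) (n1 npr)

/-! ### the components of a set `L` and the vertices of `C` -/

/-- the vertices of `C` which touch `K` -/
def NK (G : SimpleGraph V) (C K : Set V) : Set V := {c | c ∈ C ∧ ∃ z ∈ K, G.Adj c z}

/-- the vertices of `C` which are complete to `K` -/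
def TK (G : SimpleGraph V) (C K : Set V) : Set V := {c | c ∈ C ∧ ∀ z ∈ K, G.Adj c z}

/-- there are no `c, c'` in `C` with private neighbours in two different components of `L` -/
def H4 (G : SimpleGraph V) (C L : Set V) : Prop :=
  ∀ K K', IsComp G L K → IsComp G L K' → K ≠ K' → ∀ c ∈ C, ∀ c' ∈ C, ∀ z ∈ K, ∀ z' ∈ K',
    G.Adj c z → ¬ G.Adj c' z → G.Adj c' z' → G.Adj c z'

/-- two different `c, c'` in `C` which touch two different components do not both miss the same vertex in both -/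
def H3 (G : SimpleGraph V) (C L : Set V) : Prop :=
  ∀ K K', IsComp G L K → IsComp G L K' → K ≠ K' → ∀ c ∈ C, ∀ c' ∈ C, c ≠ c' →
    (∃ x ∈ K, G.Adj c x) → (∃ x ∈ K', G.Adj c' x) → ∀ z ∈ K, ¬ G.Adj c z → ¬ G.Adj c' z →
      ∀ z' ∈ K', G.Adj c z' ∨ G.Adj c' z'

/-- the vertices of `NK G C K` which are not complete to all components with a larger `NK` -/
def BB (G : SimpleGraph V) (C L K : Set V) : Set V :=
  {c | c ∈ NK G C K ∧ ∃ K', IsComp G L K' ∧ NK G C K ⊂ NK G C K' ∧ c ∉ TK G C K'}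

/-! ### the sets of a clean chain -/

/-- class `true`, below the last two indices -/
def Cs (n : ℕ) (q : V → ℕ) (κ : V → Bool) : Set V := {u | κ u = true ∧ q u + 3 ≤ n}

/-- class `false`, below the last two indices, without `e s m` -/
def Ls (n : ℕ) (e : Bool → ℕ → V) (q : V → ℕ) (κ : V → Bool) (m : ℕ) : Set V :=
  {u | κ u = false ∧ q u + 3 ≤ n ∧ ∀ s, u ≠ e s m}

/-- the vertices with high positions -/
def Zs (n : ℕ) (q : V → ℕ) : Set V := {u | n < q u + 3}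

/-- `K` is a component of `Ls` with the properties of `K*` in the note -/
structure KS (G : SimpleGraph V) (n : ℕ) (v : ℕ → V) (e : Bool → ℕ → V) (q : V → ℕ)
    (κ : V → Bool) (m : ℕ) (K : Set V) : Prop where
  cmp : IsComp G (Ls n e q κ m) K
  f1 : ∀ z ∈ K, ¬ G.Adj (v (m + 1)) z
  f2 : ∃ z ∈ K, m ≤ q z + 3
  hT : ∀ K', IsComp G (Ls n e q κ m) K' → NK G (Cs n q κ) K ⊂ NK G (Cs n q κ) K' →
    TK G (Cs n q κ) K ⊆ TK G (Cs n q κ) K'

/-- the window around `m`: two different vertices of class `true` with positions in `[m - 9, m + 4]` are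
adjacent -/
def Win (G : SimpleGraph V) (q : V → ℕ) (κ : V → Bool) (m : ℕ) : Prop :=
  ∀ u u', κ u = true → κ u' = true → m ≤ q u + 9 → q u ≤ m + 4 → m ≤ q u' + 9 → q u' ≤ m + 4 →
    u ≠ u' → G.Adj u u'

end Pool.Agent.MPd439b2.CH
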