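import Pool.Agent.Lib.MP_d439b2_co.CH.Spec

/-!
# MP_d439b2_co, CH: components of a set
-/

set_option autoImplicit false

namespace Pool.Agent.MPd439b2.CH

open Pool.Agent.MPd439b2
open Pool.Agent.MPd439b2.Rep
open Pool.Agent.MPd439b2.F9
open Pool.Agent.MPd439b2.A0

theorem cCd : S_Cd := by
  intro V G X
  refine ⟨?_, ?_⟩
  · intro x hx
    obtain ⟨C, h1, h2, h3, h4⟩ := exists_comp G hx
    exact ⟨C, ⟨h1, h3, h4⟩, h2⟩
  · intro K K' hK hK' hne
    have hd : Disjoint K K' := by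
      rw [Set.disjoint_left]
      intro a ha ha'
      apply hne
      have hu : Conn G (K ∪ K') := hK.2.1.union hK'.2.1 (Or.inl ⟨a, ha, ha'⟩)
      have hX : K ∪ K' ⊆ X := Set.union_subset hK.1 hK'.1
      have e1 : K = K ∪ K' := hu.eq_of_nb Set.subset_union_left ⟨a, ha⟩
        fun v hv => hK.2.2 v (hX hv)
      have e2 : K' = K ∪ K' := hu.eq_of_nb Set.subset_union_right ⟨a, ha'⟩
        fun v hv => hK'.2.2 v (hX hv)
      exact e1.trans e2.symm
    refine ⟨hd, ?_⟩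
    rintro ⟨x, hx, y, hy, hxy⟩
    have h1 : y ∉ K := fun h => Set.disjoint_left.1 hd h hy
    exact hK.2.2 y (hK'.1 hy) ⟨h1, x, hx, hxy⟩

end Pool.Agent.MPd439b2.CH
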