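import Pool.Agent.Lib.MP_d439b2_co.CH.Spec

/-!
# MP_d439b2_co, CH, CsA
-/

set_option autoImplicit false

namespace Pool.Agent.MPd439b2.CH

open Pool.Agent.MPd439b2
open Pool.Agent.MPd439b2.Rep
open Pool.Agent.MPd439b2.F9
open Pool.Agent.MPd439b2.A0

theorem cCsA : S_R2 → S_R3 → S_R4 → S_R5 → S_CsA := by
  intro h2 h3 h4 h5 V G n v e h hI u hu i hi s u1
  by_cases hc : ∃ k r, i + 2 ≤ k ∧ k < n ∧ G.Adj u (e r k)
  · obtain ⟨k, r, hik, hkn, u2⟩ := hc
    have a1 : ∀ t, G.Adj u (e t (i + 1)) := fun t => by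
      by_contra hh
      exact h2 V G n v e h hI u hu i (i + 1) k (by omega) (by omega) hkn s t r u1 hh u2
    have a2 : ∀ l, i + 1 ≤ l → l < n → G.Adj u (v l) := fun l hl hln =>
      h5 V G n v e h hI u hu i (i + 1) k l (by omega) (by omega) hkn hl hln s r u1 a1 u2
    have a3 : ∀ l, i + 1 < l → l < n → ∀ t, G.Adj u (e t l) := fun l hl hln t =>
      h4 V G n v e h hI u hu i (i + 1) l (by omega) hl hln s t u1 a1
        (Or.inr (a2 (i + 1) le_rfl (by omega)))
    exact ⟨true, fun j hj hjn => ⟨iff_of_true (a2 j (by omega) (by omega)).symm rfl,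
      fun t => iff_of_true (a3 j (by omega) (by omega) t).symm rfl⟩⟩
  · push Not at hc
    refine ⟨false, fun j hj hjn => ⟨iff_of_false (fun hh => ?_) Bool.false_ne_true,
      fun t => iff_of_false (fun hh => ?_) Bool.false_ne_true⟩⟩
    · exact h3 V G n v e h hI u hu i (i + 2) j (j + 1) (by omega) hj (by omega) hjn s s u1
        (hc (i + 2) s le_rfl (by omega)) hh.symm
    · exact hc j t hj (by omega) hh.symm

end Pool.Agent.MPd439b2.CH
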