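import Pool.Agent.Lib.MP_d439b2_co.CH.Spec

/-!
# MP_d439b2_co, CH, CsB
-/

set_option autoImplicit false

namespace Pool.Agent.MPd439b2.CH

open Pool.Agent.MPd439b2
open Pool.Agent.MPd439b2.Rep
open Pool.Agent.MPd439b2.F9
open Pool.Agent.MPd439b2.A0

theorem cCsB : S_R9 → S_RT → S_CsA → S_CsB := by
  intro h9 hT hA V G n v e h hI u hu i hi hup
  by_cases hn : i + 5 < n
  swap
  · exact ⟨true, fun j hj hjn => absurd hn (by omega)⟩
  by_cases c0 : ∃ s, G.Adj u (e s i)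
  · obtain ⟨s, hs⟩ := c0
    obtain ⟨κ, hκ⟩ := hA V G n v e h hI u hu i hi s hs
    exact ⟨κ, fun j hj hjn => hκ j (by omega) hjn⟩
  by_cases c1 : ∃ s, G.Adj u (e s (i + 1))
  · obtain ⟨s, hs⟩ := c1
    obtain ⟨κ, hκ⟩ := hA V G n v e h hI u hu (i + 1) (by omega) s hs
    exact ⟨κ, fun j hj hjn => hκ j (by omega) hjn⟩
  by_cases c2 : ∃ s, G.Adj u (e s (i + 2))
  · obtain ⟨s, hs⟩ := c2
    obtain ⟨κ, hκ⟩ := hA V G n v e h hI u hu (i + 2) (by omega) s hs
    exact ⟨κ, fun j hj hjn => hκ j (by omega) hjn⟩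
  push Not at c0 c1 c2
  have n0 : ¬ G.Adj u (v i) := fun hh => hup ⟨hh.symm, fun s h' => c0 s h'.symm⟩
  have n1 : ∀ l, i + 1 ≤ l → l < n → ¬ G.Adj u (v l) := fun l hl hln =>
    h9 V G n v e h hI u hu i (i + 1) l (i + 2) (by omega) hl hln (by omega) (by omega) true n0
      (c1 true) c2
  refine ⟨false, fun j hj hjn => ⟨iff_of_false (fun hh => ?_) Bool.false_ne_true,
    fun t => iff_of_false (fun hh => ?_) Bool.false_ne_true⟩⟩
  · exact n1 j (by omega) (by omega) hh.symm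
  · exact hT V G n v e h hI u hu i (i + 1) (i + 2) j (by omega) (by omega) (by omega) (by omega) t
      true n0 (n1 (i + 1) le_rfl (by omega)) (n1 (i + 2) (by omega) (by omega)) (c1 true) hh.symm

end Pool.Agent.MPd439b2.CH
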