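import Pool.Agent.Lib.MP_d439b2_co.CH.Spec

/-!
# MP_d439b2_co, CH/FC: vertices of class `true` see the vertices with larger positions
-/

set_option autoImplicit false

namespace Pool.Agent.MPd439b2.CH

open Pool.Agent.MPd439b2
open Pool.Agent.MPd439b2.Rep
open Pool.Agent.MPd439b2.F9
open Pool.Agent.MPd439b2.A0

theorem cFC : S_FC := by
  intro V G n v e hch hno i j hij hj u u' hui huj hu'i hu'j
  by_contra huu
  have hi : i < n := by omega
  obtain ⟨uv1, ue1⟩ := hui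
  obtain ⟨uv2, ue2⟩ := huj
  obtain ⟨wv1, we1⟩ := hu'i
  obtain ⟨wv2, we2⟩ := hu'j
  have a1 : G.Adj (v i) u := uv1.2 rfl
  have a3 : ∀ s, G.Adj (e s i) u := fun s => (ue1 s).2 rfl
  have a4 : ∀ s, G.Adj (e s j) u := fun s => (ue2 s).2 rfl
  have a5 : ∀ s, G.Adj (v i) (e s j) := fun s => (hch.ve i hi j hj s).2 hij
  have n1 : ∀ s t, ¬ G.Adj (e s j) (e t i) := fun s t h =>
    hij.ne' ((hch.ee j hj i hi s t).1 h).1
  have d1 : ∀ s, e s j ≠ u' := by
    intro s h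
    have h1 := (hch.adj_e hj s).symm
    rw [h] at h1
    exact we2 _ h1
  have d2 : u ≠ u' := by
    rintro rfl
    exact we1 false (a3 false)
  apply hno
  refine eng (a := v i) (a' := v i) (b := u) (b' := u) (c := e false j) (d := e true j) (p := u')
    (r := e false i) (Or.inl rfl) (Or.inl rfl) (Or.inl a1) (Or.inl (a5 false)) (Or.inl (a5 true))
    (Or.inl (a4 false).symm) (Or.inl (a4 true).symm) (hch.adj_ft hj) (Or.inl wv1)
    (Or.inl (a3 false).symm) ?_ ?_ huu huu (we2 false) (n1 false false) (we2 true) (n1 true false)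
    (fun h => we1 false h.symm) ⟨a1.ne, a1.ne, a1.ne, a1.ne⟩ ⟨(a5 false).ne, (a5 false).ne⟩
    ⟨(a5 true).ne, (a5 true).ne⟩ ⟨wv1.ne, wv1.ne⟩ ⟨hch.nve hi hi false, hch.nve hi hi false⟩
    ⟨(a4 false).ne', (a4 false).ne'⟩ ⟨(a4 true).ne', (a4 true).ne'⟩ ⟨d2, d2⟩
    ⟨(a3 false).ne', (a3 false).ne'⟩ (d1 false) (hch.nee hj hi hij.ne') (d1 true)
    (hch.nee hj hi hij.ne')
  · exact fun h => lt_irrefl _ ((hch.ve i hi i hi false).1 h)
  · exact fun h => lt_irrefl _ ((hch.ve i hi i hi false).1 h)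

end Pool.Agent.MPd439b2.CH
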