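import Pool.Agent.Lib.MP_d439b2_co.CH.Spec

/-!
# MP_d439b2_co, CH/FL: vertices of class `false` miss the vertices with larger positions
-/

set_option autoImplicit false

namespace Pool.Agent.MPd439b2.CH

open Pool.Agent.MPd439b2
open Pool.Agent.MPd439b2.Rep
open Pool.Agent.MPd439b2.F9
open Pool.Agent.MPd439b2.A0

theorem cFL : S_FL := by
  intro V G n v e hch hno i j k hij hjk hk u u' hui huj huk hu'i hu'j hu'k huu
  have hi : i < n := by omega
  have hj : j < n := by omega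
  have hik : i < k := by omega
  have b1 : ¬ G.Adj (v i) u := fun h => Bool.false_ne_true (hui.1.1 h)
  have b2 : ¬ G.Adj (v j) u := fun h => Bool.false_ne_true (huj.1.1 h)
  have b4 : ∀ s, ¬ G.Adj (e s j) u := fun s h => Bool.false_ne_true ((huj.2 s).1 h)
  have b5 : ∀ s, ¬ G.Adj (e s k) u := fun s h => Bool.false_ne_true ((huk.2 s).1 h)
  have n1 : ∀ s t, ¬ G.Adj (e s k) (e t j) := fun s t h =>
    hjk.ne' ((hch.ee k hk j hj s t).1 h).1
  have m1 : ∀ s, ¬ G.Adj (v j) (e s j) := fun s h => lt_irrefl _ ((hch.ve j hj j hj s).1 h)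
  have aij : G.Adj (v i) (v j) := hch.vv i hi j hj hij.ne
  have du : ∀ l, l < n → (∀ s, ¬ G.Adj (e s l) u) → ∀ s, e s l ≠ u := by
    intro l hl h s h1
    have h2 := (hch.adj_e hl s).symm
    rw [h1] at h2
    exact h _ h2
  have du' : ∀ l, l < n → (∀ s, ¬ G.Adj (e s l) u') → ∀ s, u' ≠ e s l := by
    intro l hl h s h1
    have h2 := (hch.adj_e hl s).symm
    rw [← h1] at h2
    exact h _ h2
  apply hno
  refine eng (a := v j) (a' := u') (b := v i) (b' := e false j) (c := e false k) (d := e true k)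
    (p := u) (r := e true j) (Or.inr hu'j.1) (Or.inr ((hch.ve i hi j hj false).2 hij))
    (Or.inl aij.symm) (Or.inl ((hch.ve j hj k hk false).2 hjk))
    (Or.inl ((hch.ve j hj k hk true).2 hjk)) (Or.inl ((hch.ve i hi k hk false).2 hik))
    (Or.inl ((hch.ve i hi k hk true).2 hik)) (hch.adj_ft hk) (Or.inr huu.symm)
    (Or.inr (hch.adj_ft hj)) (m1 true) (fun h => hu'j.2 true h.symm) b1 (b4 false) (b5 false)
    (n1 false true) (b5 true) (n1 true true) (fun h => b4 true h.symm)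
    ⟨aij.ne', hch.nve hj hj false, hu'i.1.ne', du' j hj hu'j.2 false⟩
    ⟨hch.nve hj hk false, du' k hk hu'k.2 false⟩ ⟨hch.nve hj hk true, du' k hk hu'k.2 true⟩
    ⟨?_, huu.ne'⟩ ⟨hch.nve hj hj true, du' j hj hu'j.2 true⟩
    ⟨hch.nve hi hk false, hch.nee hj hk hjk.ne⟩ ⟨hch.nve hi hk true, hch.nee hj hk hjk.ne⟩
    ⟨?_, du j hj b4 false⟩ ⟨hch.nve hi hj true, (hch.adj_ft hj).ne⟩ (du k hk b5 false)
    (hch.nee hk hj hjk.ne') (du k hk b5 true) (hch.nee hk hj hjk.ne')
  · intro h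
    rw [← h] at b1
    exact b1 aij
  · intro h
    rw [← h] at b2
    exact b2 aij.symm

end Pool.Agent.MPd439b2.CH
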