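import Pool.Agent.Lib.MP_d439b2_co.CH.Spec

/-!
# MP_d439b2_co, CH: the positions around `K*` (helper9)
-/

set_option autoImplicit false

namespace Pool.Agent.MPd439b2.CH

open Pool.Agent.MPd439b2 Pool.Agent.MPd439b2.Rep Pool.Agent.MPd439b2.F9 Pool.Agent.MPd439b2.A0

/-- **Fa.** -/
theorem cFa (hQ : S_Q) (ht : S_Ht) : S_Fa := by
  intro V G n v e q κ hC hK m hm K hS
  obtain ⟨Q1, -, -⟩ := hQ V G n v e q κ hC
  have inL : ∀ K', IsComp G (Ls n e q κ m) K' → ∀ z ∈ K', κ z = false ∧ q z + 3 ≤ n := by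
    intro K' hK' z hz
    have h := hK'.1 hz
    exact ⟨h.1, h.2.1⟩
  have low : ∀ z i, i < n → ¬ G.Adj (v i) z → q z ≤ i := by
    intro z i hi hn
    by_contra hlt
    exact hn ((hC.pos z).1 i hi (by omega)).1
  have high : ∀ z i, i < n → κ z = false → q z < i → ¬ G.Adj (v i) z := by
    intro z i hi hk hlt hadj
    have h := ((hC.pos z).2 i hi hlt).1.1 hadj
    rw [hk] at h
    exact absurd h (by decide)
  have up : ∀ z i, i < n → i < q z → G.Adj (v i) z := fun z i hi hlt =>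
    ((hC.pos z).1 i hi hlt).1
  have vC : ∀ i, i + 3 ≤ n → v i ∈ Cs n q κ := by
    intro i hi
    obtain ⟨h1, h2⟩ := Q1 i (by omega)
    exact ⟨h2, by rw [h1]; exact hi⟩
  -- (1)
  have c1 : ∀ c ∈ NK G (Cs n q κ) K, q c ≤ m + 2 := by
    rintro c ⟨hc, z, hz, hcz⟩
    have h1 := low z (m + 1) (by omega) (hS.f1 z hz)
    by_contra hlt
    have h2 := (hC.far z c (by omega)).1 hcz.symm
    rw [(inL K hS.cmp z hz).1] at h2
    exact absurd h2 (by decide)
  -- (2)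
  have c2 : ∀ c ∈ Cs n q κ, c ∉ NK G (Cs n q κ) K → m ≤ q c + 4 := by
    intro c hc hcn
    obtain ⟨z, hz, hzm⟩ := hS.f2
    by_contra hlt
    exact hcn ⟨hc, z, hz, (hC.far c z (by omega)).2 hc.1⟩
  -- (3)
  have c3 : ∀ K', IsComp G (Ls n e q κ m) K' → NK G (Cs n q κ) K' ⊆ NK G (Cs n q κ) K →
      ∀ z ∈ K', q z ≤ m + 1 := by
    intro K' _ hsub z hz
    refine low z (m + 1) (by omega) fun hadj => ?_
    obtain ⟨_, z', hz', hadj'⟩ := hsub ⟨vC (m + 1) (by omega), z, hz, hadj⟩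
    exact hS.f1 z' hz' hadj'
  -- (4)
  have c4 : ∀ K', IsComp G (Ls n e q κ m) K' → NK G (Cs n q κ) K ⊂ NK G (Cs n q κ) K' →
      ∀ z ∈ K', m ≤ q z + 6 := by
    intro K' hK' hsub z hz
    by_contra hlt
    have hzL := inL K' hK' z hz
    have e1 : v (q z + 1) ∉ TK G (Cs n q κ) K := by
      intro h
      have h2 := hS.hT K' hK' hsub h
      exact high z (q z + 1) (by omega) hzL.1 (by omega) (h2.2 z hz)
    obtain ⟨z₁, hz₁, hn₁⟩ : ∃ z₁ ∈ K, ¬ G.Adj (v (q z + 1)) z₁ := by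
      by_contra hcon
      push Not at hcon
      exact e1 ⟨vC _ (by omega), hcon⟩
    have q1 := low z₁ (q z + 1) (by omega) hn₁
    have k1 := (inL K hS.cmp z₁ hz₁).1
    obtain ⟨z₂, hz₂, hq₂⟩ := hS.f2
    have a2 : G.Adj (v (q z + 2)) z₂ := up z₂ _ (by omega) (by omega)
    have a3 : G.Adj (v (q z + 3)) z₂ := up z₂ _ (by omega) (by omega)
    have n3 : v (q z + 3) ∈ NK G (Cs n q κ) K' := hsub.1 ⟨vC _ (by omega), z₂, hz₂, a3⟩
    have hne : K ≠ K' := by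
      rintro rfl
      exact hsub.2 subset_rfl
    rcases ht V G n v e q κ hC (by omega) hK m K K' hS.cmp hK' hne (v (q z + 2))
      (vC _ (by omega)) (v (q z + 3)) (vC _ (by omega))
      (hC.ch.nvv (by omega) (by omega) (by omega)) ⟨z₂, hz₂, a2⟩ n3.2 z₁ hz₁
      (high z₁ _ (by omega) k1 (by omega)) (high z₁ _ (by omega) k1 (by omega)) z hz with h | h
    · exact high z _ (by omega) hzL.1 (by omega) h
    · exact high z _ (by omega) hzL.1 (by omega) h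
  refine ⟨c1, c2, c3, c4, ?_⟩
  rintro c ⟨hcN, K', hK', hsub, hcT⟩
  obtain ⟨z, hz, hcz⟩ : ∃ z ∈ K', ¬ G.Adj c z := by
    by_contra hcon
    push Not at hcon
    exact hcT ⟨hcN.1, hcon⟩
  have h4 := c4 K' hK' hsub z hz
  by_contra hlt
  exact hcz ((hC.far c z (by omega)).2 hcN.1.1)

end Pool.Agent.MPd439b2.CH
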