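import Pool.Agent.Lib.MP_d439b2_co.CH.Spec

/-!
# MP_d439b2_co, CH/Fi: the cut in a clean chain (helper82)
-/

set_option autoImplicit false

namespace Pool.Agent.MPd439b2.CH

open Pool.Agent.MPd439b2
open Pool.Agent.MPd439b2.Rep
open Pool.Agent.MPd439b2.F9
open Pool.Agent.MPd439b2.A0

theorem cFi (hQ : S_Q) (hC : S_Cd) (hN : S_Ne) (hf : S_Hf) (ht : S_Ht) (hK : S_Ky) (hF : S_Fa)
    (hA : S_Ab) : S_Fi := by
  intro V _ G n v e q κ h hI m B hW hBm hmn
  obtain ⟨hQ1, hQ2, hQ3⟩ := hQ V G n v e q κ h
  obtain ⟨K, hK1⟩ := hK V G n v e q κ h hI m (by omega) (by omega)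
  obtain ⟨fa1, fa2, fa3, fa4, fa5⟩ := hF V G n v e q κ h hI m (by omega) K hK1
  have h4 := hf V G n v e q κ h (by omega) hI m
  have h3 := ht V G n v e q κ h (by omega) hI m
  have hadj : ∀ c c' : V, κ c = true → κ c' = true → c ≠ c' → m ≤ q c + 8 → q c ≤ m + 3 →
      (q c' + 1 < q c ∨ (m ≤ q c' + 9 ∧ q c' ≤ m + 4) ∨ q c + 1 < q c') → G.Adj c c' := by
    intro c c' hc hc' hne h1 h2 h5
    rcases h5 with h5 | h5 | h5
    · exact ((h.far c' c (by omega)).2 hc').symm
    · exact hW c c' hc hc' (by omega) (by omega) h5.1 h5.2 hne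
    · exact (h.far c c' (by omega)).2 hc
  obtain ⟨X, hX1, hX2, hX3⟩ := hA V G (Cs n q κ) (Ls n e q κ m) (Zs n q) {e false m, e true m} K
    (by
      refine Set.eq_univ_of_forall fun x => ?_
      by_cases h1 : q x + 3 ≤ n
      · rcases Bool.eq_false_or_eq_true (κ x) with h2 | h2
        · exact Or.inl (Or.inl (Or.inl ⟨h2, h1⟩))
        · by_cases h5 : ∀ s, x ≠ e s m
          · exact Or.inl (Or.inl (Or.inr ⟨h2, h1, h5⟩))
          · push Not at h5
            obtain ⟨s, hs⟩ := h5
            refine Or.inr ?_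
            cases s
            · exact Or.inl hs
            · exact Or.inr hs
      · exact Or.inl (Or.inr (by
          show n < q x + 3
          omega)))
    (by
      refine (Set.ncard_insert_le _ _).trans ?_
      rw [Set.ncard_singleton])
    h4 h3 hK1.cmp hK1.hT
    (by
      intro c hc c' hc' hn
      have h1 := fa1 c hc
      have h2 := fa2 c' hc' hn
      have hne : c ≠ c' := by
        rintro rfl
        exact hn hc
      by_cases h5 : q c + 1 < q c'
      · exact (h.far c c' (by omega)).2 hc.1.1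
      by_cases h6 : q c' + 1 < q c
      · exact ((h.far c' c (by omega)).2 hc'.1).symm
      · exact hadj c c' hc.1.1 hc'.1 hne (by omega) (by omega)
          (Or.inr (Or.inl ⟨by omega, by omega⟩)))
    (by
      intro c hc c' hc' hn
      have h0 := fa1 c hc.1
      have h1 := fa1 c' hc'
      have h2 := fa5 c hc
      have hne : c ≠ c' := by
        rintro rfl
        exact hn hc
      by_cases h5 : q c + 1 < q c'
      · exact ((h.far c c' (by omega)).2 hc.1.1.1).symm
      by_cases h6 : q c' + 1 < q c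
      · exact (h.far c' c (by omega)).2 hc'.1.1
      · exact (hadj c c' hc.1.1.1 hc'.1.1 hne (by omega) (by omega)
          (Or.inr (Or.inl ⟨by omega, by omega⟩))).symm)
    (by
      intro K' hK' hs z hz y hy hzy
      have h1 := fa3 K' hK' hs z hz
      have h2 : n < q y + 3 := hy
      have h5 := (h.far z y (by omega)).1 hzy
      have h6 : κ z = false := (hK'.1 hz).1
      rw [h6] at h5
      exact Bool.noConfusion h5)
    (by
      intro c hc y hy
      have h1 := fa1 c hc
      have h2 : n < q y + 3 := hy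
      exact (h.far c y (by omega)).2 hc.1.1)
  have hsz : ∀ (Y : Set V) (a : ℕ), a + B < n → (∀ b, b ≤ B → e false (a + b) ∈ Y) →
      B < Y.ncard := by
    intro Y a ha hb
    have h1 : ((fun b => e false (a + b)) '' (Set.Iic B)).ncard = B + 1 := by
      rw [Set.ncard_image_of_injOn]
      · rw [Set.ncard_eq_toFinset_card']
        simp
      · intro b hb1 b' hb2 hbb
        have h5 : b ≤ B := hb1
        have h6 : b' ≤ B := hb2
        by_contra hne
        exact h.ch.nee (i := a + b) (j := a + b') (by omega) (by omega) (s := false) (t := false)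
          (by omega) hbb
    have h2 : ((fun b => e false (a + b)) '' (Set.Iic B)) ⊆ Y := by
      rintro y ⟨b, hb1, rfl⟩
      exact hb b hb1
    have h5 := Set.ncard_le_ncard h2 (Set.toFinite _)
    omega
  refine ⟨X, hX3, hsz X 0 (by omega) ?_, hsz Xᶜ (m + 2) (by omega) ?_⟩
  · intro b hb
    rw [Nat.zero_add]
    have hq : q (e false b) = b := hQ2 b (by omega) false
    have hk : κ (e false b) = false := hQ3 b (by omega) false
    have hL : e false b ∈ Ls n e q κ m :=
      ⟨hk, by omega, fun s => h.ch.nee (by omega) (by omega) (by omega)⟩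
    obtain ⟨K', hK', hbK'⟩ := (hC V G (Ls n e q κ m)).1 _ hL
    refine hX1 K' hK' ?_ hbK'
    by_contra hcon
    have h1 : NK G (Cs n q κ) K ⊂ NK G (Cs n q κ) K' := by
      refine ⟨?_, hcon⟩
      rcases (hN V G _ _ h4 K K' hK1.cmp hK').1 with h2 | h2
      · exact h2
      · exact absurd h2 hcon
    have h2 := fa4 K' hK' h1 _ hbK'
    omega
  · intro b hb hcon
    have hq : q (e false (m + 2 + b)) = m + 2 + b := hQ2 _ (by omega) false
    have hk : κ (e false (m + 2 + b)) = false := hQ3 _ (by omega) false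
    rcases hX2 _ hcon with h1 | ⟨K', hK', hs, h1⟩
    · have h2 : κ (e false (m + 2 + b)) = true := h1.1.1
      rw [hk] at h2
      exact Bool.noConfusion h2
    · have h2 := fa3 K' hK' hs _ h1
      omega

end Pool.Agent.MPd439b2.CH
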