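import Pool.Agent.Lib.MP_d439b2_co.CH.Spec

/-!
# MP_d439b2_co, CH/Hf: the property H4 of a clean chain
-/

set_option autoImplicit false

namespace Pool.Agent.MPd439b2.CH

open Pool.Agent.MPd439b2
open Pool.Agent.MPd439b2.Rep
open Pool.Agent.MPd439b2.F9
open Pool.Agent.MPd439b2.A0

private theorem Hf_tch {V : Type} {G : SimpleGraph V} {x y : V} (h : G.Adj x y) :
    Tch G {x} {y} := ⟨x, rfl, y, rfl, h⟩

private theorem Hf_ntch {V : Type} {G : SimpleGraph V} {x y : V} (h : ¬ G.Adj x y) :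
    ¬ Tch G {x} {y} := by
  rintro ⟨z, hz, y', hy', h'⟩
  rw [Set.mem_singleton_iff] at hy' hz
  subst hz hy'
  exact h h'

private theorem Hf_dis {V : Type} {x y : V} (h : x ≠ y) : Disjoint ({x} : Set V) {y} :=
  Set.disjoint_singleton.2 h

theorem cHf (hR : S_Rt) (hC : S_Cd) : S_Hf := by
  intro V G n v e q κ hCC hn hK m K K' hKc hKc' hne c hc c' hc' z hz z' hz' h1 h2 h3
  by_contra h4
  obtain ⟨hd, ht⟩ := (hC V G (Ls n e q κ m)).2 K K' hKc hKc' hne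
  have hzL := hKc.1 hz
  have hzL' := hKc'.1 hz'
  have hκ : ∀ {x y : V}, κ x = true → κ y = false → x ≠ y := by
    intro x y hx hy h
    rw [h, hy] at hx
    exact Bool.noConfusion hx
  refine hR V G n v e q κ hCC hn hK {c} {c'} {z} {z'} (Conn.singleton G c) (Conn.singleton G c')
    (Conn.singleton G z) (Conn.singleton G z') ?_ ⟨c, rfl, hc.1⟩ ⟨c', rfl, hc'.1⟩ ?_
    (Hf_dis ?_) (Hf_dis (hκ hc.1 hzL.1)) (Hf_dis (hκ hc.1 hzL'.1)) (Hf_dis (hκ hc'.1 hzL.1))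
    (Hf_dis (hκ hc'.1 hzL'.1)) (Hf_dis ?_) (Hf_tch h1) (Hf_ntch h2) (Hf_tch h3) (Hf_ntch h4)
    (Hf_ntch ?_)
  · rintro x (hx | hx)
    · rw [Set.mem_singleton_iff.1 hx]; exact hc.2
    · rw [Set.mem_singleton_iff.1 hx]; exact hc'.2
  · rintro y (hy | hy)
    · rw [Set.mem_singleton_iff.1 hy]; exact ⟨hzL.1, hzL.2.1⟩
    · rw [Set.mem_singleton_iff.1 hy]; exact ⟨hzL'.1, hzL'.2.1⟩
  · rintro rfl; exact h2 h1
  · rintro rfl; exact Set.disjoint_left.1 hd hz hz'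
  · exact fun h => ht ⟨z, hz, z', hz', h⟩

end Pool.Agent.MPd439b2.CH
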