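import Pool.Agent.Lib.MP_d439b2_co.CH.Spec

/-!
# MP_d439b2_co, CH: the part of a connected set without a vertex
-/

set_option autoImplicit false

namespace Pool.Agent.MPd439b2.CH

open Pool.Agent.MPd439b2
open Pool.Agent.MPd439b2.Rep
open Pool.Agent.MPd439b2.F9
open Pool.Agent.MPd439b2.A0

theorem cIn (hC : S_Cd) : S_In := by
  intro V G K x z hK hx hz hxz
  obtain ⟨A, hA, hxA⟩ := (hC V G (K \ {z})).1 x ⟨hx, hxz⟩
  have hAK : A ⊆ K := hA.1.trans Set.diff_subset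
  have hzA : z ∉ A := fun h => (hA.1 h).2 rfl
  obtain ⟨b, hb, a, ha, hab⟩ := hK.2 A hAK ⟨x, hxA⟩ (fun h => hzA (by rw [h]; exact hz))
  refine ⟨A, hAK, hzA, hxA, hA.2.1, b, hb, ?_⟩
  by_cases haz : a = z
  · rw [← haz]; exact hab
  · exact absurd ⟨ha.2, b, hb, hab⟩ (hA.2.2 a ⟨ha.1, haz⟩)

end Pool.Agent.MPd439b2.CH
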