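import Pool.Agent.Lib.MP_d439b2_co.CH.Spec

/-!
# MP_d439b2_co, CH: the component `K*`
-/

set_option autoImplicit false

namespace Pool.Agent.MPd439b2.CH

open Pool.Agent.MPd439b2
open Pool.Agent.MPd439b2.Rep
open Pool.Agent.MPd439b2.F9
open Pool.Agent.MPd439b2.A0

theorem cKy (hQ : S_Q) (hL : S_LH) (hC : S_Cd) (hf : S_Hf) (hz : S_Kz) : S_Ky := by
  intro V _ G n v e q κ h F m h4 h5
  obtain ⟨q1, q2, q3⟩ := hQ V G n v e q κ h
  have hx0 : e false (m - 2) ∈ Ls n e q κ m := by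
    refine ⟨q3 (m - 2) (by omega) _, ?_, ?_⟩
    · rw [q2 (m - 2) (by omega)]; omega
    · intro s
      exact h.ch.nee (by omega) (by omega) (by omega)
  obtain ⟨K₀, hK₀, hx₀⟩ := (hC V G (Ls n e q κ m)).1 _ hx0
  obtain ⟨K, hK, hN, hT, hTT⟩ := hz V G (Cs n q κ) (Ls n e q κ m)
    (hf V G n v e q κ h (by omega) F m) K₀ hK₀
  have vC : ∀ i, i + 3 ≤ n → v i ∈ Cs n q κ := by
    intro i hi
    refine ⟨(q1 i (by omega)).2, ?_⟩
    rw [(q1 i (by omega)).1]; exact hi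
  have f2 : ∃ z ∈ K, m ≤ q z + 3 := by
    have h6 : v (m - 3) ∈ NK G (Cs n q κ) K₀ :=
      ⟨vC _ (by omega), e false (m - 2), hx₀,
        (h.ch.ve (m - 3) (by omega) (m - 2) (by omega) false).2 (by omega)⟩
    obtain ⟨-, z, hzK, hcz⟩ := hN h6
    refine ⟨z, hzK, ?_⟩
    by_contra hlt
    have h7 := ((h.pos z).2 (m - 3) (by omega) (by omega)).1
    have h8 : κ z = true := h7.1 hcz
    have h9 : κ z = false := (hK.1 hzK).1
    rw [h9] at h8
    exact Bool.false_ne_true h8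
  have f1' : ∃ z ∈ K, q z + 1 < m := by
    have h6 : v (m - 2) ∉ TK G (Cs n q κ) K := by
      intro h7
      have h8 := (hT h7).2 _ hx₀
      exact absurd ((h.ch.ve (m - 2) (by omega) (m - 2) (by omega) false).1 h8) (by omega)
    have h7 : ∃ z ∈ K, ¬ G.Adj (v (m - 2)) z := by
      by_contra h8
      push Not at h8
      exact h6 ⟨vC _ (by omega), h8⟩
    obtain ⟨z, hzK, hn⟩ := h7
    refine ⟨z, hzK, ?_⟩
    by_contra hlt
    exact hn ((h.pos z).1 (m - 2) (by omega) (by omega)).1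
  have f1 := hL V G n v e q κ h F m (by omega) (by omega) K hK.2.1
    (fun y hy => hK.1 hy) f1'
  refine ⟨K, ⟨hK, ?_, f2, hTT⟩⟩
  intro z hzK hadj
  exact f1 ⟨z, hzK, hadj⟩

end Pool.Agent.MPd439b2.CH
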