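import Pool.Agent.Lib.MP_d439b2_co.CH.Spec

/-!
# MP_d439b2_co, CH/Kz: choice of a component (helper37)
-/

set_option autoImplicit false

namespace Pool.Agent.MPd439b2.CH

open Pool.Agent.MPd439b2
open Pool.Agent.MPd439b2.Rep
open Pool.Agent.MPd439b2.F9
open Pool.Agent.MPd439b2.A0

theorem cKz (hN : S_Ne) : S_Kz := by
  intro V _ G C L h4 K₀ hK₀
  have hfin : {K : Set V | IsComp G L K ∧ NK G C K₀ ⊆ NK G C K}.Finite := Set.toFinite _
  obtain ⟨K, ⟨hK, hsub⟩, hmin⟩ := Set.exists_min_image _ (fun K : Set V => (TK G C K).ncard) hfin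
    ⟨K₀, hK₀, le_rfl⟩
  refine ⟨K, hK, hsub, ?_, ?_⟩
  · rcases (hN V G C L h4 K K₀ hK hK₀).2 with h | h
    · exact h
    · exact (Set.eq_of_subset_of_ncard_le h (hmin K₀ ⟨hK₀, le_rfl⟩)).ge
  · intro K' hK' hlt
    rcases (hN V G C L h4 K K' hK hK').2 with h | h
    · exact h
    · exact (Set.eq_of_subset_of_ncard_le h (hmin K' ⟨hK', hsub.trans hlt.1⟩)).ge

end Pool.Agent.MPd439b2.CH
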