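import Pool.Agent.Lib.MP_d439b2_co.CH.Spec

/-!
# MP_d439b2_co, CH, LH: low and high
-/

set_option autoImplicit false

namespace Pool.Agent.MPd439b2.CH

open Pool.Agent.MPd439b2
open Pool.Agent.MPd439b2.Rep
open Pool.Agent.MPd439b2.F9
open Pool.Agent.MPd439b2.A0

theorem cLH (hQ : S_Q) (hR : S_Rt) (hP : S_Pth) (hS : S_Seg) : S_LH := by
  classical
  intro V G n v e q κ hcc hims m hm hmn Y hY hYp hlow hhigh
  obtain ⟨y₀, hy₀Y, hy₀⟩ := hlow
  obtain ⟨r, y, hy0, hyY, hadj, hinj, hRr, hmin⟩ :=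
    hP V G Y y₀ (fun z => G.Adj (v (m + 1)) z) hY hy₀Y hhigh
  obtain ⟨hQ1, hQ2, hQ3⟩ := hQ V G n v e q κ hcc
  have hch := hcc.ch
  have hqv1 := hQ1 (m - 1) (by omega)
  have hqv2 := hQ1 (m + 1) (by omega)
  have hqe := fun s => hQ2 m (by omega) s
  have hke := fun s => hQ3 m (by omega) s
  have hf : ∀ i, i ≤ r → κ (y i) = false ∧ q (y i) + 3 ≤ n ∧ ∀ s, y i ≠ e s m :=
    fun i hi => hYp _ (hyY i hi)
  -- vertices of class `false`
  have hv : ∀ i, i ≤ r → ∀ j < n, G.Adj (v j) (y i) → j ≤ q (y i) := by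
    intro i hi j hj h
    by_contra hlt
    push Not at hlt
    have h1 := ((hcc.pos (y i)).2 j hj hlt).1.1 h
    rw [(hf i hi).1] at h1
    exact absurd h1 (by decide)
  have hup : ∀ i, i ≤ r → ∀ j < n, j < q (y i) → Up G v e j (y i) := fun i _ j hj h =>
    (hcc.pos (y i)).1 j hj h
  have hco : ∀ i, i ≤ r → ∀ j < n, q (y i) < j →
      ¬ G.Adj (v j) (y i) ∧ ∀ s, ¬ G.Adj (e s j) (y i) := by
    intro i hi j hj h
    have h1 := (hcc.pos (y i)).2 j hj h
    rw [(hf i hi).1] at h1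
    exact ⟨fun h2 => absurd (h1.1.1 h2) (by decide), fun s h2 => absurd ((h1.2 s).1 h2) (by decide)⟩
  have he : ∀ i, i ≤ r → ∀ s, G.Adj (e s m) (y i) → q (y i) = m := by
    intro i hi s h
    rcases lt_trichotomy (q (y i)) m with h1 | h1 | h1
    · exact absurd h ((hco i hi m (by omega) h1).2 s)
    · exact h1
    · exact absurd h ((hup i hi m (by omega) h1).2 s)
  have hqr : m + 1 ≤ q (y r) := hv r le_rfl (m + 1) (by omega) hRr
  have hr1 : G.Adj (v (m - 1)) (y r) := (hup r le_rfl (m - 1) (by omega) (by omega)).1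
  have hr2 : ∀ s, ¬ G.Adj (e s m) (y r) := (hup r le_rfl m (by omega) (by omega)).2
  have hq0 : q (y 0) + 1 < m := by rw [hy0]; exact hy₀
  have h01 : ¬ G.Adj (v (m - 1)) (y 0) := (hco 0 (Nat.zero_le _) (m - 1) (by omega) (by omega)).1
  have h02 : ∀ s, ¬ G.Adj (e s m) (y 0) := (hco 0 (Nat.zero_le _) m (by omega) (by omega)).2
  -- different vertices
  have dv1 : ∀ i, i ≤ r → v (m - 1) ≠ y i := by
    intro i hi h
    have := hqv1.2
    rw [h, (hf i hi).1] at this
    exact absurd this (by decide)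
  have dv2 : ∀ i, i ≤ r → v (m + 1) ≠ y i := by
    intro i hi h
    have := hqv2.2
    rw [h, (hf i hi).1] at this
    exact absurd this (by decide)
  have de1 : ∀ s, v (m - 1) ≠ e s m := fun s => hch.nve (by omega) (by omega) s
  have de2 : ∀ s, v (m + 1) ≠ e s m := fun s => hch.nve (by omega) (by omega) s
  have dvv : v (m - 1) ≠ v (m + 1) := hch.nvv (by omega) (by omega) (by omega)
  -- (i)
  have key : ∀ s, ∃ i, i ≤ r ∧ G.Adj (e s m) (y i) := by
    intro s
    by_contra hno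
    push Not at hno
    have hex : ∃ x, x ≤ r ∧ G.Adj (v (m - 1)) (y x) := ⟨r, le_rfl, hr1⟩
    set x := Nat.find hex with hx
    obtain ⟨hxr, hxa⟩ := Nat.find_spec hex
    have hxm : ∀ i, i < x → ¬ G.Adj (v (m - 1)) (y i) := fun i hi h =>
      Nat.find_min hex hi ⟨by omega, h⟩
    have hx0 : 0 < x := by
      rcases Nat.eq_zero_or_pos x with h | h
      · rw [← hx, h] at hxa
        exact absurd hxa h01
      · exact h
    have cT' : Conn G (insert (v (m + 1)) {z | ∃ i, x ≤ i ∧ i ≤ r ∧ z = y i}) :=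
      (hS V G r y hadj x r hxr le_rfl).insert ⟨y r, ⟨r, hxr, le_rfl, rfl⟩, hRr.symm⟩
    have cY' : Conn G {z | ∃ i, 0 ≤ i ∧ i ≤ x - 1 ∧ z = y i} :=
      hS V G r y hadj 0 (x - 1) (Nat.zero_le _) (by omega)
    refine hR V G n v e q κ hcc (by omega) hims {v (m - 1)}
      (insert (v (m + 1)) {z | ∃ i, x ≤ i ∧ i ≤ r ∧ z = y i}) {e s m}
      {z | ∃ i, 0 ≤ i ∧ i ≤ x - 1 ∧ z = y i} (Conn.singleton G _) cT' (Conn.singleton G _) cY'
      ?_ ⟨_, rfl, hqv1.2⟩ ⟨_, Or.inl rfl, hqv2.2⟩ ?_ ?_ ?_ ?_ ?_ ?_ ?_ ?_ ?_ ?_ ?_ ?_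
    · rintro z (hz | hz | ⟨i, _, hi, rfl⟩)
      · rw [Set.mem_singleton_iff] at hz
        rw [hz, hqv1.1]; omega
      · rw [hz, hqv2.1]; omega
      · exact (hf i hi).2.1
    · rintro z (hz | ⟨i, _, hi, rfl⟩)
      · rw [Set.mem_singleton_iff] at hz
        rw [hz]
        exact ⟨hke s, by rw [hqe s]; omega⟩
      · exact ⟨(hf i (by omega)).1, (hf i (by omega)).2.1⟩
    · rw [Set.disjoint_singleton_left]
      rintro (h | ⟨i, _, hi, h⟩)
      · exact dvv h
      · exact dv1 i hi h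
    · exact Set.disjoint_singleton.2 (de1 s)
    · rw [Set.disjoint_singleton_left]
      rintro ⟨i, _, hi, h⟩
      exact dv1 i (by omega) h
    · rw [Set.disjoint_singleton_right]
      rintro (h | ⟨i, _, hi, h⟩)
      · exact de2 s h.symm
      · exact (hf i hi).2.2 s h.symm
    · rw [Set.disjoint_left]
      rintro z (hz | ⟨i, hi1, hi2, rfl⟩) ⟨j, _, hj, h⟩
      · exact dv2 j (by omega) (hz ▸ h)
      · have := hinj i hi2 j (by omega) h
        omega
    · rw [Set.disjoint_singleton_left]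
      rintro ⟨i, _, hi, h⟩
      exact (hf i (by omega)).2.2 s h.symm
    · exact ⟨_, rfl, _, rfl, (hch.ve _ (by omega) _ (by omega) s).2 (by omega)⟩
    · rintro ⟨z, hz, z', hz', h⟩
      rw [Set.mem_singleton_iff] at hz'
      subst hz'
      rcases hz with hz | ⟨i, _, hi, rfl⟩
      · rw [hz, hch.ve _ (by omega) _ (by omega) s] at h
        omega
      · exact hno i hi h.symm
    · refine ⟨y x, Or.inr ⟨x, le_rfl, hxr, rfl⟩, y (x - 1), ⟨x - 1, Nat.zero_le _, le_rfl, rfl⟩, ?_⟩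
      have := hadj (x - 1) (by omega)
      rw [Nat.sub_add_cancel hx0] at this
      exact this.symm
    · rintro ⟨z, hz, z', ⟨i, _, hi, rfl⟩, h⟩
      rw [Set.mem_singleton_iff] at hz
      subst hz
      exact hxm i (by omega) h
    · rintro ⟨z, hz, z', ⟨i, _, hi, rfl⟩, h⟩
      rw [Set.mem_singleton_iff] at hz
      subst hz
      exact hno i (by omega) h
  -- (ii)
  obtain ⟨ha1, ha2⟩ := Nat.find_spec (key false)
  obtain ⟨hb1, hb2⟩ := Nat.find_spec (key true)
  set a := Nat.find (key false) with hadef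
  set b := Nat.find (key true) with hbdef
  have ha0 : 0 < a := by
    rcases Nat.eq_zero_or_pos a with h | h
    · rw [h] at ha2; exact absurd ha2 (h02 false)
    · exact h
  have hb0 : 0 < b := by
    rcases Nat.eq_zero_or_pos b with h | h
    · rw [h] at hb2; exact absurd hb2 (h02 true)
    · exact h
  have har : a < r := by
    rcases lt_or_eq_of_le ha1 with h | h
    · exact h
    · rw [h] at ha2; exact absurd ha2 (hr2 false)
  have hbr : b < r := by
    rcases lt_or_eq_of_le hb1 with h | h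
    · exact h
    · rw [h] at hb2; exact absurd hb2 (hr2 true)
  set c := max a b with hc
  have hac : a ≤ c := le_max_left _ _
  have hbc : b ≤ c := le_max_right _ _
  have hcr : c < r := max_lt har hbr
  have hva : G.Adj (v (m - 1)) (y a) := by
    have := he a ha1 false ha2
    exact (hup a ha1 (m - 1) (by omega) (by omega)).1
  apply hims
  refine aM1 V G {v (m - 1)} {z | ∃ i, 1 ≤ i ∧ i ≤ c ∧ z = y i} {e false m} {e true m}
    {v (m + 1)} {y 0} (Conn.singleton G _) (hS V G r y hadj 1 c (by omega) hcr.le)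
    (Conn.singleton G _) (Conn.singleton G _) (Conn.singleton G _) (Conn.singleton G _)
    ?_ (Set.disjoint_singleton.2 (de1 false)) (Set.disjoint_singleton.2 (de1 true))
    (Set.disjoint_singleton.2 dvv) (Set.disjoint_singleton.2 (dv1 0 (Nat.zero_le _)))
    ?_ ?_ ?_ ?_ (Set.disjoint_singleton.2 (hch.ft (by omega) false))
    (Set.disjoint_singleton.2 (de2 false).symm)
    (Set.disjoint_singleton.2 ((hf 0 (Nat.zero_le _)).2.2 false).symm)
    (Set.disjoint_singleton.2 (de2 true).symm)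
    (Set.disjoint_singleton.2 ((hf 0 (Nat.zero_le _)).2.2 true).symm)
    (Set.disjoint_singleton.2 (dv2 0 (Nat.zero_le _)))
    ⟨_, rfl, y a, ⟨a, ha0, hac, rfl⟩, hva⟩
    ⟨_, rfl, _, rfl, (hch.ve _ (by omega) _ (by omega) _).2 (by omega)⟩
    ⟨_, rfl, _, rfl, (hch.ve _ (by omega) _ (by omega) _).2 (by omega)⟩
    ⟨y a, ⟨a, ha0, hac, rfl⟩, _, rfl, ha2.symm⟩
    ⟨y b, ⟨b, hb0, hbc, rfl⟩, _, rfl, hb2.symm⟩
    ⟨_, rfl, _, rfl, hch.adj_ft (by omega)⟩
    ⟨_, rfl, _, rfl, hch.vv _ (by omega) _ (by omega) (by omega)⟩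
    ⟨y 1, ⟨1, le_rfl, by omega, rfl⟩, y 0, rfl, (hadj 0 (by omega)).symm⟩
    ?_ ?_ ?_ ?_ ?_ ?_ ?_
  · rw [Set.disjoint_singleton_left]
    rintro ⟨i, _, hi, h⟩
    exact dv1 i (by omega) h
  · rw [Set.disjoint_singleton_right]
    rintro ⟨i, _, hi, h⟩
    exact (hf i (by omega)).2.2 false h.symm
  · rw [Set.disjoint_singleton_right]
    rintro ⟨i, _, hi, h⟩
    exact (hf i (by omega)).2.2 true h.symm
  · rw [Set.disjoint_singleton_right]
    rintro ⟨i, _, hi, h⟩
    exact dv2 i (by omega) h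
  · rw [Set.disjoint_singleton_right]
    rintro ⟨i, hi1, hi, h⟩
    have := hinj 0 (Nat.zero_le _) i (by omega) h
    omega
  all_goals
    rintro ⟨z, hz, z', hz', h⟩
  · rw [Set.mem_singleton_iff] at hz hz'
    subst hz hz'
    exact h01 h
  · rw [Set.mem_singleton_iff] at hz'
    obtain ⟨i, _, hi, rfl⟩ := hz
    subst hz'
    exact hmin i (by omega) h.symm
  · rw [Set.mem_singleton_iff] at hz hz'
    subst hz hz'
    rw [hch.ev (by omega) (by omega)] at h
    omega
  · rw [Set.mem_singleton_iff] at hz hz'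
    subst hz hz'
    exact h02 _ h
  · rw [Set.mem_singleton_iff] at hz hz'
    subst hz hz'
    rw [hch.ev (by omega) (by omega)] at h
    omega
  · rw [Set.mem_singleton_iff] at hz hz'
    subst hz hz'
    exact h02 _ h
  · rw [Set.mem_singleton_iff] at hz hz'
    subst hz hz'
    exact hmin 0 (by omega) h

end Pool.Agent.MPd439b2.CH
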