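import Pool.Agent.Lib.MP_d439b2_co.CH.Spec

/-!
# MP_d439b2_co, CH: `NK` and `TK` are nested
-/

set_option autoImplicit false

namespace Pool.Agent.MPd439b2.CH

open Pool.Agent.MPd439b2
open Pool.Agent.MPd439b2.Rep
open Pool.Agent.MPd439b2.F9
open Pool.Agent.MPd439b2.A0

theorem cNe : S_Ne := by
  intro V G C L h K K' hK hK'
  by_cases hne : K = K'
  · subst hne
    exact ⟨Or.inl subset_rfl, Or.inl subset_rfl⟩
  refine ⟨?_, ?_⟩
  · by_contra hc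
    push Not at hc
    obtain ⟨h1, h2⟩ := hc
    rw [Set.not_subset] at h1 h2
    obtain ⟨c, ⟨hcC, z, hz, hcz⟩, hc'⟩ := h1
    obtain ⟨c', ⟨hcC', z', hz', hcz'⟩, hc2⟩ := h2
    refine hc' ⟨hcC, z', hz', h K K' hK hK' hne c hcC c' hcC' z hz z' hz' hcz ?_ hcz'⟩
    intro h3
    exact hc2 ⟨hcC', z, hz, h3⟩
  · by_contra hc
    push Not at hc
    obtain ⟨h1, h2⟩ := hc
    rw [Set.not_subset] at h1 h2
    obtain ⟨c, ⟨hcC, hcK⟩, hc'⟩ := h1
    obtain ⟨c', ⟨hcC', hcK'⟩, hc2⟩ := h2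
    have e1 : ∃ z' ∈ K', ¬ G.Adj c z' := by
      by_contra h3
      push Not at h3
      exact hc' ⟨hcC, h3⟩
    have e2 : ∃ z ∈ K, ¬ G.Adj c' z := by
      by_contra h3
      push Not at h3
      exact hc2 ⟨hcC', h3⟩
    obtain ⟨z', hz', hn'⟩ := e1
    obtain ⟨z, hz, hn⟩ := e2
    exact hn' (h K K' hK hK' hne c hcC c' hcC' z hz z' hz' (hcK z hz) hn (hcK' z' hz'))

end Pool.Agent.MPd439b2.CH
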