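import Pool.Agent.Lib.MP_d439b2_co.CH.Spec

/-!
# MP_d439b2_co, CH/Pr: pairs in BB
-/

set_option autoImplicit false

namespace Pool.Agent.MPd439b2.CH

open Pool.Agent.MPd439b2
open Pool.Agent.MPd439b2.Rep
open Pool.Agent.MPd439b2.F9
open Pool.Agent.MPd439b2.A0

private theorem Pr_tk {V : Type} {G : SimpleGraph V} {C K : Set V} {c : V} (hc : c ∈ C)
    (h : c ∉ TK G C K) : ∃ z ∈ K, ¬ G.Adj c z := by
  by_contra hcon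
  push Not at hcon
  exact h ⟨hc, hcon⟩

private theorem Pr_iff {V : Type} {G : SimpleGraph V} {C L K : Set V} (hC : S_Cd) (h4 : H4 G C L)
    (hK : IsComp G L K) {c c' z₁ z₂ : V} (hc : c ∈ C) (hc' : c' ∈ C) (h1 : z₁ ∈ K) (h2 : z₂ ∈ K)
    (n1 : ¬ G.Adj c z₁) (a1 : G.Adj c' z₁) (n2 : ¬ G.Adj c' z₂) (a2 : G.Adj c z₂) :
    ∀ z ∈ L, z ∉ K → (G.Adj c z ↔ G.Adj c' z) := by
  intro z hz hzK
  obtain ⟨K', hK', hzK'⟩ := (hC V G L).1 z hz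
  have hne : K' ≠ K := fun h => hzK (h ▸ hzK')
  constructor
  · intro h
    by_contra hn
    exact n1 (h4 K' K hK' hK hne c hc c' hc' z hzK' z₁ h1 h hn a1)
  · intro h
    by_contra hn
    exact n2 (h4 K' K hK' hK hne c' hc' c hc z hzK' z₂ h2 h hn a2)

theorem cPr (hC : S_Cd) : S_Pr := by
  intro V G C L K h4 h3 hK hT c hc c' hc' hne
  have hcC : c ∈ C := hc.1.1
  have hcC' : c' ∈ C := hc'.1.1
  have hout : ∀ d ∈ BB G C L K, d ∉ TK G C K := by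
    rintro d ⟨_, K', hK', hss, hd⟩ h
    exact hd (hT K' hK' hss h)
  by_cases h : ∃ z₀ ∈ K, ¬ G.Adj c z₀ ∧ ¬ G.Adj c' z₀
  · right
    obtain ⟨z₀, hz₀, m1, m2⟩ := h
    have ha : ∀ K', IsComp G L K' → NK G C K ⊂ NK G C K' → ∀ y ∈ K', G.Adj c y ∨ G.Adj c' y := by
      intro K' hK' hss y hy
      have hKK : K ≠ K' := by
        rintro rfl
        exact ssubset_irrefl _ hss
      exact h3 K K' hK hK' hKK c hcC c' hcC' hne hc.1.2 (hss.1 hc'.1).2 z₀ hz₀ m1 m2 y hy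
    have key : ∀ K₁ K₂, IsComp G L K₁ → IsComp G L K₂ → NK G C K ⊂ NK G C K₁ →
        NK G C K ⊂ NK G C K₂ → c ∉ TK G C K₁ → c' ∉ TK G C K₂ → K₁ = K₂ := by
      intro K₁ K₂ hK₁ hK₂ s1 s2 t1 t2
      by_contra hK12
      obtain ⟨y₁, hy₁, n1⟩ := Pr_tk hcC t1
      obtain ⟨y₂, hy₂, n2⟩ := Pr_tk hcC' t2
      have a1 : G.Adj c' y₁ := (ha K₁ hK₁ s1 y₁ hy₁).resolve_left n1
      have a2 : G.Adj c y₂ := (ha K₂ hK₂ s2 y₂ hy₂).resolve_right n2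
      exact n2 (h4 K₁ K₂ hK₁ hK₂ hK12 c' hcC' c hcC y₁ hy₁ y₂ hy₂ a1 n1 a2)
    obtain ⟨_, K₁, hK₁, s1, t1⟩ := hc
    obtain ⟨_, K₂, hK₂, s2, t2⟩ := hc'
    have e12 := key K₁ K₂ hK₁ hK₂ s1 s2 t1 t2
    subst e12
    obtain ⟨y₁, hy₁, n1⟩ := Pr_tk hcC t1
    obtain ⟨y₂, hy₂, n2⟩ := Pr_tk hcC' t2
    have a1 : G.Adj c' y₁ := (ha K₁ hK₁ s1 y₁ hy₁).resolve_left n1
    have a2 : G.Adj c y₂ := (ha K₁ hK₂ s2 y₂ hy₂).resolve_right n2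
    refine ⟨K₁, hK₁, s1, t1, ?_, Pr_iff hC h4 hK₁ hcC hcC' hy₁ hy₂ n1 a1 n2 a2⟩
    intro K' hK' s' hne'
    by_contra hn
    exact hne' (key K' K₁ hK' hK₂ s' s2 hn t2)
  · left
    push Not at h
    obtain ⟨z₁, hz₁, n1⟩ := Pr_tk hcC (hout c hc)
    obtain ⟨z₂, hz₂, n2⟩ := Pr_tk hcC' (hout c' hc')
    have a1 : G.Adj c' z₁ := h z₁ hz₁ n1
    have a2 : G.Adj c z₂ := by
      by_contra hn
      exact n2 (h z₂ hz₂ hn)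
    exact ⟨Pr_iff hC h4 hK hcC hcC' hz₁ hz₂ n1 a1 n2 a2, z₁, hz₁, fun hh => n1 (hh.2 a1)⟩

end Pool.Agent.MPd439b2.CH
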