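import Pool.Agent.Lib.MP_d439b2_co.CH.Spec

/-!
# MP_d439b2_co, CH: paths in connected sets (helper25)
-/

set_option autoImplicit false

namespace Pool.Agent.MPd439b2.CH

open Pool.Agent.MPd439b2 Pool.Agent.MPd439b2.Rep Pool.Agent.MPd439b2.F9 Pool.Agent.MPd439b2.A0

/-- `y 0, ..., y r` is a walk in `Y` from `y₀` to `z` -/
private def PthW {V : Type} (G : SimpleGraph V) (Y : Set V) (y₀ : V) (r : ℕ) (z : V) (y : ℕ → V) :
    Prop :=
  y 0 = y₀ ∧ y r = z ∧ (∀ i ≤ r, y i ∈ Y) ∧ ∀ i < r, G.Adj (y i) (y (i + 1))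

private theorem pth_reach {V : Type} (G : SimpleGraph V) (Y : Set V) (y₀ : V) (hY : Conn G Y)
    (h0 : y₀ ∈ Y) : ∀ z ∈ Y, ∃ r y, PthW G Y y₀ r z y := by
  have h : {z | ∃ r y, PthW G Y y₀ r z y} = Y := by
    refine hY.eq_of_nb ?_ ⟨y₀, 0, fun _ => y₀, rfl, rfl, fun _ _ => h0, ?_⟩ ?_
    · rintro z ⟨r, y, _, h2, h3, _⟩
      rw [← h2]
      exact h3 r le_rfl
    · intro i hi
      exact absurd hi (Nat.not_lt_zero i)
    · rintro v hv ⟨hvC, a, ⟨r, y, h1, h2, h3, h4⟩, hav⟩
      refine hvC ⟨r + 1, fun k => if k ≤ r then y k else v, ?_, ?_, ?_, ?_⟩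
      · simp only [Nat.zero_le, if_true]
        exact h1
      · have e : ¬ r + 1 ≤ r := by omega
        simp only [e, if_false]
      · intro i _
        by_cases hi' : i ≤ r
        · simp only [hi', if_true]
          exact h3 i hi'
        · simp only [hi', if_false]
          exact hv
      · intro i hi
        have hi' : i ≤ r := by omega
        by_cases hi'' : i + 1 ≤ r
        · simp only [hi', hi'', if_true]
          exact h4 i hi''
        · have e : i = r := by omega
          simp only [hi', hi'', if_true, if_false]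
          rw [e, h2]
          exact hav
  intro z hz
  rw [← h] at hz
  exact hz

/-- a shorter walk -/
private theorem pth_short {V : Type} {G : SimpleGraph V} {Y : Set V} {y₀ z : V} {r : ℕ} {y : ℕ → V}
    (h : PthW G Y y₀ r z y) {i j : ℕ} (hij : i < j) (hj : j ≤ r) (he : y i = y j) :
    ∃ r' < r, ∃ y', PthW G Y y₀ r' z y' := by
  obtain ⟨h1, h2, h3, h4⟩ := h
  refine ⟨r - (j - i), by omega, fun k => if k ≤ i then y k else y (k + (j - i)), ?_, ?_, ?_, ?_⟩
  · simp only [Nat.zero_le, if_true]
    exact h1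
  · by_cases hk : r - (j - i) ≤ i
    · have hr : r = j := by omega
      have hr' : r - (j - i) = i := by omega
      simp only [hr', le_refl, if_true]
      rw [he, ← hr]
      exact h2
    · simp only [hk, if_false]
      rw [Nat.sub_add_cancel (by omega)]
      exact h2
  · intro k hk
    by_cases hk' : k ≤ i
    · simp only [hk', if_true]
      exact h3 k (by omega)
    · simp only [hk', if_false]
      exact h3 _ (by omega)
  · intro k hk
    by_cases hk' : k + 1 ≤ i
    · have hk'' : k ≤ i := by omega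
      simp only [hk', hk'', if_true]
      exact h4 k (by omega)
    · by_cases hk'' : k ≤ i
      · have e : k = i := by omega
        simp only [hk', hk'', if_true, if_false]
        rw [e, he]
        have e2 : i + 1 + (j - i) = j + 1 := by omega
        rw [e2]
        exact h4 j (by omega)
      · simp only [hk', hk'', if_false]
        have e2 : k + 1 + (j - i) = k + (j - i) + 1 := by omega
        rw [e2]
        exact h4 _ (by omega)

/-- **Pth.** -/
theorem cPth : S_Pth := by
  classical
  intro V G Y y₀ R hY h0 hR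
  have hex : ∃ r : ℕ, ∃ z y, R z ∧ PthW G Y y₀ r z y := by
    obtain ⟨z, hz, hRz⟩ := hR
    obtain ⟨r, y, hy⟩ := pth_reach G Y y₀ hY h0 z hz
    exact ⟨r, z, y, hRz, hy⟩
  obtain ⟨z, y, hRz, hy⟩ := Nat.find_spec hex
  have hmin : ∀ m < Nat.find hex, ¬ ∃ z y, R z ∧ PthW G Y y₀ m z y := fun m hm =>
    Nat.find_min hex hm
  obtain ⟨h1, h2, h3, h4⟩ := hy
  refine ⟨Nat.find hex, y, h1, h3, h4, ?_, ?_, ?_⟩
  · have key : ∀ i j, i < j → j ≤ Nat.find hex → y i ≠ y j := by
      intro i j hij hj he
      obtain ⟨r', hr', y', hy'⟩ := pth_short ⟨h1, h2, h3, h4⟩ hij hj he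
      exact hmin r' hr' ⟨z, y', hRz, hy'⟩
    intro i hi j hj he
    rcases lt_trichotomy i j with h5 | h5 | h5
    · exact absurd he (key i j h5 hj)
    · exact h5
    · exact absurd he.symm (key j i h5 hi)
  · rw [h2]
    exact hRz
  · intro i hi hRi
    exact hmin i hi ⟨y i, y, hRi, h1, rfl, fun k hk => h3 k (by omega), fun k hk => h4 k (by omega)⟩

end Pool.Agent.MPd439b2.CH
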