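import Pool.Agent.Lib.MP_d439b2_co.CH.Spec

/-!
# MP_d439b2_co, CH: positions of the vertices of the chain (helper25)
-/

set_option autoImplicit false

namespace Pool.Agent.MPd439b2.CH

open Pool.Agent.MPd439b2 Pool.Agent.MPd439b2.Rep Pool.Agent.MPd439b2.F9 Pool.Agent.MPd439b2.A0

/-- **Q.** -/
theorem cQ : S_Q := by
  intro V G n v e q κ h
  have hq : ∀ i < n, ∀ s, q (e s i) = i := by
    intro i hi s
    have hadj : G.Adj (e (!s) i) (e s i) := (h.ch.adj_e hi s).symm
    rcases lt_trichotomy (q (e s i)) i with h1 | h1 | h1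
    · exfalso
      have h2 := ((h.pos (e s i)).2 i hi h1).2
      exact G.irrefl ((h2 s).2 ((h2 (!s)).1 hadj))
    · exact h1
    · exact absurd hadj (((h.pos (e s i)).1 i hi h1).2 (!s))
  refine ⟨fun i hi => ?_, hq, fun i hi s => ?_⟩
  · have hi' : i < n := by omega
    have hadj : G.Adj (v (i + 1)) (v i) := h.ch.vv (i + 1) hi i hi' (by omega)
    have hq' : q (v i) = i := by
      rcases lt_trichotomy (q (v i)) i with h1 | h1 | h1
      · exfalso
        have h2 := ((h.pos (v i)).2 i hi' h1).1
        have h3 := ((h.pos (v i)).2 (i + 1) hi (by omega)).1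
        exact G.irrefl (h2.2 (h3.1 hadj))
      · exact h1
      · exact absurd (((h.pos (v i)).1 i hi' h1).1) G.irrefl
    exact ⟨hq', (((h.pos (v i)).2 (i + 1) hi (by omega)).1).1 hadj⟩
  · have hi' : i < n := by omega
    have h1 := hq i hi' s
    have h2 := ((h.pos (e s i)).2 (i + 1) hi (by omega)).1
    rw [h.ch.ve (i + 1) hi i hi' s] at h2
    cases hk : κ (e s i) with
    | false => rfl
    | true => exact absurd (h2.2 hk) (by omega)

end Pool.Agent.MPd439b2.CH
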