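import Pool.Agent.Lib.MP_d439b2_co.CH.Spec

/-!
# MP_d439b2_co, CH: R3, one small model
-/

set_option autoImplicit false

namespace Pool.Agent.MPd439b2.CH

open Pool.Agent.MPd439b2
open Pool.Agent.MPd439b2.Rep
open Pool.Agent.MPd439b2.F9
open Pool.Agent.MPd439b2.A0

theorem cR3 : S_R3 := by
  intro V G n v e h hF u hu i j l k hij hjl hlk hk s t us ut uv
  have hi : i < n := by omega
  have hj : j < n := by omega
  have hl : l < n := by omega
  have hil : i ≠ l := by omega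
  have hkj : k ≠ j := by omega
  have hki : k ≠ i := by omega
  have hji : j ≠ i := by omega
  have ve : ∀ a < n, ∀ b < n, ∀ s, a < b → G.Adj (v a) (e s b) := fun a ha b hb s hab =>
    (h.ve a ha b hb s).2 hab
  have nve : ∀ a < n, ∀ b < n, ∀ s, b ≤ a → ¬ G.Adj (v a) (e s b) := fun a ha b hb s hab h1 =>
    absurd ((h.ve a ha b hb s).1 h1) (by omega)
  have nee : ∀ a < n, ∀ b < n, ∀ s t, a ≠ b → ¬ G.Adj (e s a) (e t b) :=
    fun a ha b hb s t hab h1 => hab ((h.ee a ha b hb s t).1 h1).1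
  refine hF (eng (a := v i) (a' := v i) (b := v l) (b' := u) (c := e false k) (d := e true k)
    (p := e t j) (r := e s i) (Or.inl rfl) (Or.inr uv.symm) (Or.inl (h.vv i hi l hl hil))
    (Or.inl (ve i hi k hk _ (by omega))) (Or.inl (ve i hi k hk _ (by omega)))
    (Or.inl (ve l hl k hk _ hlk)) (Or.inl (ve l hl k hk _ hlk)) (h.adj_ft hk)
    (Or.inl (ve i hi j hj _ hij)) (Or.inr us)
    (nve i hi i hi s le_rfl) (nve i hi i hi s le_rfl) (nve l hl j hj t hjl) ut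
    (nee k hk j hj _ _ hkj) (nee k hk i hi _ _ hki) (nee k hk j hj _ _ hkj) (nee k hk i hi _ _ hki)
    (nee j hj i hi _ _ hji)
    ⟨h.nvv hi hl hil, (hu i hi).1.symm, h.nvv hi hl hil, (hu i hi).1.symm⟩
    ⟨h.nve hi hk _, h.nve hi hk _⟩ ⟨h.nve hi hk _, h.nve hi hk _⟩
    ⟨h.nve hi hj _, h.nve hi hj _⟩ ⟨h.nve hi hi _, h.nve hi hi _⟩
    ⟨h.nve hl hk _, (hu k hk).2 _⟩ ⟨h.nve hl hk _, (hu k hk).2 _⟩
    ⟨h.nve hl hj _, (hu j hj).2 _⟩ ⟨h.nve hl hi _, (hu i hi).2 _⟩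
    (h.nee hk hj hkj) (h.nee hk hi hki) (h.nee hk hj hkj) (h.nee hk hi hki))

end Pool.Agent.MPd439b2.CH
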