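import Pool.Agent.Lib.MP_d439b2_co.CH.Spec

/-!
# MP_d439b2_co, CH, R4
-/

set_option autoImplicit false

namespace Pool.Agent.MPd439b2.CH

open Pool.Agent.MPd439b2
open Pool.Agent.MPd439b2.Rep
open Pool.Agent.MPd439b2.F9
open Pool.Agent.MPd439b2.A0

theorem cR4 : S_R4 := by
  intro V G n v e h hIMS u hu i j k hij hjk hkn s t u1 u2 u3
  by_contra n1
  have hi : i < n := by omega
  have hj : j < n := by omega
  have ne : ∀ {a b : ℕ}, a < n → b < n → a ≠ b → ∀ s t, ¬ G.Adj (e s a) (e t b) :=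
    fun ha hb hab s t hh => hab ((h.ee _ ha _ hb s t).1 hh).1
  have nv : ∀ {a b : ℕ}, a < n → b < n → ¬ a < b → ∀ s, ¬ G.Adj (v a) (e s b) :=
    fun ha hb hab s hh => hab ((h.ve _ ha _ hb s).1 hh)
  exact hIMS (eng (a := e s i) (a' := u) (b := v i) (b' := v j) (c := e false j) (d := e true j)
    (p := e (!s) i) (r := e t k) (Or.inr u1.symm) (Or.inr (h.vv i hi j hj (by omega)))
    (Or.inr (Or.inr u3)) (Or.inr (u2 _)) (Or.inr (u2 _)) (Or.inl ((h.ve i hi j hj _).2 hij))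
    (Or.inl ((h.ve i hi j hj _).2 hij)) (h.adj_ft hj) (Or.inl (h.adj_e hi s))
    (Or.inl ((h.ve i hi k hkn t).2 (by omega))) (ne hi hkn (by omega) _ _) n1
    (nv hi hi (by omega) _) (nv hj hi (by omega) _) (ne hj hi (by omega) _ _)
    (ne hj hkn (by omega) _ _) (ne hj hi (by omega) _ _) (ne hj hkn (by omega) _ _)
    (ne hi hkn (by omega) _ _)
    ⟨(h.nve hi hi _).symm, (h.nve hj hi _).symm, (hu i hi).1, (hu j hj).1⟩
    ⟨h.nee hi hj (by omega), (hu j hj).2 _⟩ ⟨h.nee hi hj (by omega), (hu j hj).2 _⟩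
    ⟨h.ft hi s, (hu i hi).2 _⟩ ⟨h.nee hi hkn (by omega), (hu k hkn).2 _⟩
    ⟨h.nve hi hj _, h.nve hj hj _⟩ ⟨h.nve hi hj _, h.nve hj hj _⟩
    ⟨h.nve hi hi _, h.nve hj hi _⟩ ⟨h.nve hi hkn _, h.nve hj hkn _⟩
    (h.nee hj hi (by omega)) (h.nee hj hkn (by omega)) (h.nee hj hi (by omega))
    (h.nee hj hkn (by omega)))

end Pool.Agent.MPd439b2.CH
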