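import Pool.Agent.Lib.MP_d439b2_co.CH.Spec

/-!
# MP_d439b2_co, CH, R5
-/

set_option autoImplicit false

namespace Pool.Agent.MPd439b2.CH

open Pool.Agent.MPd439b2
open Pool.Agent.MPd439b2.Rep
open Pool.Agent.MPd439b2.F9
open Pool.Agent.MPd439b2.A0

theorem cR5 : S_R5 := by
  intro V G n v e h hIMS u hu i j k l hij hjk hkn hjl hln s r u1 u2 u3
  by_contra n1
  have hi : i < n := by omega
  have hj : j < n := by omega
  have ne : ∀ {a b : ℕ}, a < n → b < n → a ≠ b → ∀ s t, ¬ G.Adj (e s a) (e t b) :=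
    fun ha hb hab s t hh => hab ((h.ee _ ha _ hb s t).1 hh).1
  have nv : ∀ {a b : ℕ}, a < n → b < n → ¬ a < b → ∀ s, ¬ G.Adj (v a) (e s b) :=
    fun ha hb hab s hh => hab ((h.ve _ ha _ hb s).1 hh)
  have nv' : ∀ {a b : ℕ}, a < n → b < n → ¬ a < b → ∀ s, ¬ G.Adj (e s b) (v a) :=
    fun ha hb hab s hh => nv ha hb hab s hh.symm
  exact hIMS (eng (a := v i) (a' := e r k) (b := e s i) (b' := u) (c := e false j)
    (d := e true j) (p := v l) (r := e (!s) i) (Or.inr ((h.ve i hi k hkn r).2 (by omega)))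
    (Or.inr u1.symm) (Or.inr (Or.inr (Or.inr u3.symm))) (Or.inl ((h.ve i hi j hj _).2 hij))
    (Or.inl ((h.ve i hi j hj _).2 hij)) (Or.inr (u2 _)) (Or.inr (u2 _)) (h.adj_ft hj)
    (Or.inl (h.vv i hi l hln (by omega))) (Or.inl (h.adj_e hi s)) (nv hi hi (by omega) _)
    (ne hkn hi (by omega) _ _) (nv' hln hi (by omega) _) n1 (nv' hln hj (by omega) _)
    (ne hj hi (by omega) _ _) (nv' hln hj (by omega) _) (ne hj hi (by omega) _ _)
    (nv hln hi (by omega) _)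
    ⟨h.nve hi hi _, (hu i hi).1.symm, h.nee hkn hi (by omega), ((hu k hkn).2 _).symm⟩
    ⟨h.nve hi hj _, h.nee hkn hj (by omega)⟩ ⟨h.nve hi hj _, h.nee hkn hj (by omega)⟩
    ⟨h.nvv hi hln (by omega), (h.nve hln hkn _).symm⟩
    ⟨h.nve hi hi _, h.nee hkn hi (by omega)⟩ ⟨h.nee hi hj (by omega), (hu j hj).2 _⟩
    ⟨h.nee hi hj (by omega), (hu j hj).2 _⟩ ⟨(h.nve hln hi _).symm, (hu l hln).1⟩
    ⟨h.ft hi s, (hu i hi).2 _⟩ (h.nve hln hj _).symm (h.nee hj hi (by omega))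
    (h.nve hln hj _).symm (h.nee hj hi (by omega)))

end Pool.Agent.MPd439b2.CH
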