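import Pool.Agent.Lib.MP_d439b2_co.CH.Spec

/-!
# MP_d439b2_co, CH/R9 (task of helper53, by helper77)
-/

set_option autoImplicit false

namespace Pool.Agent.MPd439b2.CH

open Pool.Agent.MPd439b2
open Pool.Agent.MPd439b2.Rep
open Pool.Agent.MPd439b2.F9
open Pool.Agent.MPd439b2.A0

/-- **R9.** -/
theorem cR9 : S_R9 := by
  intro V G n v e h hIMS u hu i j l k hij hjl hln hjk hkn t n1 n2 n3 hul
  have hi : i < n := by omega
  have hj : j < n := by omega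
  have A1 : ∀ s, G.Adj (v i) (e s k) := fun s => (h.ve i hi k hkn s).2 (by omega)
  have A2 : ∀ s, G.Adj (v j) (e s k) := fun s => (h.ve j hj k hkn s).2 hjk
  have A3 : ∀ s, ¬ G.Adj (e s k) (e t j) := fun s hh => by
    have := ((h.ee k hkn j hj s t).1 hh).1
    omega
  have A4 : ∀ m < n, ¬ m < j → ¬ G.Adj (v m) (e t j) := fun m hm hmj hh =>
    hmj ((h.ve m hm j hj t).1 hh)
  refine hIMS (eng (a := v i) (a' := v i) (b := v j) (b' := v l) (c := e false k) (d := e true k)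
    (p := e t j) (r := u) (Or.inl rfl) ?_ (Or.inl (h.vv i hi j hj (by omega))) (Or.inl (A1 _))
    (Or.inl (A1 _)) (Or.inl (A2 _)) (Or.inl (A2 _)) (h.adj_ft hkn)
    (Or.inl ((h.ve i hi j hj t).2 hij)) (Or.inr hul.symm) (fun hh => n1 hh.symm)
    (fun hh => n1 hh.symm) (A4 j hj (by omega)) (A4 l hln (by omega)) (A3 _)
    (fun hh => n3 _ hh.symm) (A3 _) (fun hh => n3 _ hh.symm) (fun hh => n2 hh.symm)
    ⟨h.nvv hi hj (by omega), h.nvv hi hln (by omega), h.nvv hi hj (by omega),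
      h.nvv hi hln (by omega)⟩
    ⟨h.nve hi hkn _, h.nve hi hkn _⟩ ⟨h.nve hi hkn _, h.nve hi hkn _⟩
    ⟨h.nve hi hj _, h.nve hi hj _⟩ ⟨(hu i hi).1.symm, (hu i hi).1.symm⟩
    ⟨h.nve hj hkn _, h.nve hln hkn _⟩ ⟨h.nve hj hkn _, h.nve hln hkn _⟩
    ⟨h.nve hj hj _, h.nve hln hj _⟩ ⟨(hu j hj).1.symm, (hu l hln).1.symm⟩
    (h.nee hkn hj (by omega)) ((hu k hkn).2 _).symm (h.nee hkn hj (by omega))
    ((hu k hkn).2 _).symm)
  rcases eq_or_ne j l with hh | hh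
  · exact Or.inl (by rw [hh])
  · exact Or.inr (h.vv j hj l hln hh)

end Pool.Agent.MPd439b2.CH
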