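import Pool.Agent.Lib.MP_d439b2_co.CH.Spec

/-!
# MP_d439b2_co, CH/RT: one small model
-/

set_option autoImplicit false

namespace Pool.Agent.MPd439b2.CH

open Pool.Agent.MPd439b2
open Pool.Agent.MPd439b2.Rep
open Pool.Agent.MPd439b2.F9
open Pool.Agent.MPd439b2.A0

theorem cRT : S_RT := by
  intro V G n v e hch hno u hout i j k l hij hjk hkl hl s t nui nuj nuk nut hul
  have hi : i < n := by omega
  have hj : j < n := by omega
  have hk : k < n := by omega
  have aij := hch.vv i hi j hj (by omega)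
  have aik := hch.vv i hi k hk (by omega)
  have ajk := hch.vv j hj k hk (by omega)
  have ail : G.Adj (v i) (e s l) := (hch.ve i hi l hl s).2 (by omega)
  have ajl : G.Adj (e s l) (v j) := (hch.ev hj hl s).2 (by omega)
  have akl : G.Adj (e s l) (v k) := (hch.ev hk hl s).2 (by omega)
  have aij2 : G.Adj (v i) (e t j) := (hch.ve i hi j hj t).2 hij
  have n1 : ¬ G.Adj (e s l) (e t j) := fun h => by
    have := ((hch.ee l hl j hj s t).1 h).1
    omega
  have n2 : ¬ G.Adj (v j) (e t j) := fun h => lt_irrefl _ ((hch.ve j hj j hj t).1 h)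
  have n3 : ¬ G.Adj (v k) (e t j) := fun h => by
    have := (hch.ve k hk j hj t).1 h
    omega
  have d1 : v i ≠ u := (hout i hi).1.symm
  have d2 : v j ≠ u := (hout j hj).1.symm
  have d3 : v k ≠ u := (hout k hk).1.symm
  have d4 : e s l ≠ e t j := hch.nee hl hj (by omega)
  apply hno
  exact eng (a := v i) (a' := v i) (b := e s l) (b' := e s l) (c := v j) (d := v k) (p := e t j)
    (r := u) (Or.inl rfl) (Or.inl rfl) (Or.inl ail) (Or.inl aij) (Or.inl aik) (Or.inl ajl)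
    (Or.inl akl) ajk (Or.inl aij2) (Or.inl hul.symm) (fun h => nui h.symm) (fun h => nui h.symm)
    n1 n1 n2 (fun h => nuj h.symm) n3 (fun h => nuk h.symm) (fun h => nut h.symm)
    ⟨ail.ne, ail.ne, ail.ne, ail.ne⟩ ⟨aij.ne, aij.ne⟩ ⟨aik.ne, aik.ne⟩ ⟨aij2.ne, aij2.ne⟩
    ⟨d1, d1⟩ ⟨ajl.ne, ajl.ne⟩ ⟨akl.ne, akl.ne⟩ ⟨d4, d4⟩ ⟨hul.ne', hul.ne'⟩ (hch.nve hj hj t)
    d2 (hch.nve hk hj t) d3

end Pool.Agent.MPd439b2.CH
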