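import Pool.Agent.Lib.MP_d439b2_co.CH.Spec

/-!
# MP_d439b2_co, CH/Rt: the root rule (task of helper53, by helper77)
-/

set_option autoImplicit false

namespace Pool.Agent.MPd439b2.CH

open Pool.Agent.MPd439b2
open Pool.Agent.MPd439b2.Rep
open Pool.Agent.MPd439b2.F9
open Pool.Agent.MPd439b2.A0

/-- **Rt.** The root rule. -/
theorem cRt (hQ : S_Q) : S_Rt := by
  intro V G n v e q κ hC hn hIMS T T' Y Y' cT cT' cY cY' hTT' hcT hcT' hY dTT' dTY dTY' dT'Y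
    dT'Y' dYY' tTY nT'Y tT'Y' nTY' nYY'
  obtain ⟨-, hqe, -⟩ := hQ V G n v e q κ hC
  obtain ⟨c, hc, hκc⟩ := hcT
  obtain ⟨c', hc', hκc'⟩ := hcT'
  have h2n : n - 2 < n := by omega
  have h1n : n - 1 < n := by omega
  -- adjacency of low vertices to the last pairs
  have adj : ∀ x, q x + 3 ≤ n → ∀ i, n - 2 ≤ i → i < n → ∀ s, (G.Adj (e s i) x ↔ κ x = true) := by
    intro x hx i hi hin s
    exact ((hC.pos x).2 i hin (by omega)).2 s
  have neq : ∀ x, q x + 3 ≤ n → ∀ i, n - 2 ≤ i → i < n → ∀ s, x ≠ e s i := by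
    intro x hx i hi hin s hh
    have := hqe i hin s
    rw [← hh] at this
    omega
  have hqT : ∀ x ∈ T, q x + 3 ≤ n := fun x hx => hTT' x (Or.inl hx)
  have hqT' : ∀ x ∈ T', q x + 3 ≤ n := fun x hx => hTT' x (Or.inr hx)
  have hqY : ∀ x ∈ Y, κ x = false ∧ q x + 3 ≤ n := fun x hx => hY x (Or.inl hx)
  have hqY' : ∀ x ∈ Y', κ x = false ∧ q x + 3 ≤ n := fun x hx => hY x (Or.inr hx)
  have dis : ∀ S : Set V, (∀ x ∈ S, q x + 3 ≤ n) → ∀ i, n - 2 ≤ i → i < n → ∀ s,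
      Disjoint S {e s i} := by
    intro S hS i hi hin s
    rw [Set.disjoint_singleton_right]
    exact fun hh => neq _ (hS _ hh) i hi hin s rfl
  have ntc : ∀ S : Set V, (∀ x ∈ S, κ x = false ∧ q x + 3 ≤ n) → ∀ i, n - 2 ≤ i → i < n → ∀ s,
      ¬ Tch G {e s i} S := by
    rintro S hS i hi hin s ⟨z, hz, y, hy, h⟩
    rw [Set.mem_singleton_iff] at hz
    subst hz
    have h1 := (adj y (hS y hy).2 i hi hin s).1 h
    rw [(hS y hy).1] at h1
    exact Bool.false_ne_true h1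
  have i1 : n - 2 ≤ n - 1 := by omega
  have haa' : e false (n - 2) ≠ e false (n - 1) := hC.ch.nee h2n h1n (by omega)
  have haw' : e false (n - 2) ≠ e true (n - 1) := hC.ch.nee h2n h1n (by omega)
  have haw : G.Adj (e false (n - 1)) (e true (n - 1)) := hC.ch.adj_ft h1n
  refine hIMS (aM1 V G (T ∪ {e false (n - 2)}) T' {e false (n - 1)} {e true (n - 1)} Y Y'
    ?_ cT' (Conn.singleton G _) (Conn.singleton G _) cY cY'
    ?_ ?_ ?_ ?_ ?_ ?_ ?_ ?_ ?_ ?_ ?_ ?_ ?_ ?_ ?_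
    ?_ ?_ ?_ ?_ ?_ ?_ ?_ ?_ ?_ ?_ ?_ ?_ ?_ ?_ ?_)
  · exact Conn.union cT (Conn.singleton G _)
      (Or.inr ⟨c, hc, _, rfl, ((adj c (hqT c hc) _ le_rfl h2n false).2 hκc).symm⟩)
  · exact Set.disjoint_union_left.2 ⟨dTT', (dis T' hqT' _ le_rfl h2n false).symm⟩
  · exact Set.disjoint_union_left.2 ⟨dis T hqT _ i1 h1n false, Set.disjoint_singleton.2 haa'⟩
  · exact Set.disjoint_union_left.2 ⟨dis T hqT _ i1 h1n true, Set.disjoint_singleton.2 haw'⟩
  · exact Set.disjoint_union_left.2 ⟨dTY, (dis Y (fun x hx => (hqY x hx).2) _ le_rfl h2n false).symm⟩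
  · exact Set.disjoint_union_left.2
      ⟨dTY', (dis Y' (fun x hx => (hqY' x hx).2) _ le_rfl h2n false).symm⟩
  · exact dis T' hqT' _ i1 h1n false
  · exact dis T' hqT' _ i1 h1n true
  · exact dT'Y
  · exact dT'Y'
  · exact Set.disjoint_singleton.2 haw.ne
  · exact (dis Y (fun x hx => (hqY x hx).2) _ i1 h1n false).symm
  · exact (dis Y' (fun x hx => (hqY' x hx).2) _ i1 h1n false).symm
  · exact (dis Y (fun x hx => (hqY x hx).2) _ i1 h1n true).symm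
  · exact (dis Y' (fun x hx => (hqY' x hx).2) _ i1 h1n true).symm
  · exact dYY'
  · exact ⟨_, Or.inr rfl, c', hc', (adj c' (hqT' c' hc') _ le_rfl h2n false).2 hκc'⟩
  · exact ⟨c, Or.inl hc, _, rfl, ((adj c (hqT c hc) _ i1 h1n false).2 hκc).symm⟩
  · exact ⟨c, Or.inl hc, _, rfl, ((adj c (hqT c hc) _ i1 h1n true).2 hκc).symm⟩
  · exact ⟨c', hc', _, rfl, ((adj c' (hqT' c' hc') _ i1 h1n false).2 hκc').symm⟩
  · exact ⟨c', hc', _, rfl, ((adj c' (hqT' c' hc') _ i1 h1n true).2 hκc').symm⟩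
  · exact ⟨_, rfl, _, rfl, haw⟩
  · exact tTY.mono Set.subset_union_left Set.Subset.rfl
  · exact tT'Y'
  · rintro ⟨z, hz | hz, y, hy, h⟩
    · exact nTY' ⟨z, hz, y, hy, h⟩
    · exact ntc Y' hqY' _ le_rfl h2n false ⟨z, hz, y, hy, h⟩
  · exact nT'Y
  · exact ntc Y hqY _ i1 h1n false
  · exact ntc Y' hqY' _ i1 h1n false
  · exact ntc Y hqY _ i1 h1n true
  · exact ntc Y' hqY' _ i1 h1n true
  · exact nYY'

end Pool.Agent.MPd439b2.CH
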