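import Pool.Agent.Lib.MP_d439b2_co.CH.Spec

/-!
# MP_d439b2_co, CH: segments of paths are connected
-/

set_option autoImplicit false

namespace Pool.Agent.MPd439b2.CH

open Pool.Agent.MPd439b2
open Pool.Agent.MPd439b2.Rep
open Pool.Agent.MPd439b2.F9
open Pool.Agent.MPd439b2.A0

theorem cSeg : S_Seg := by
  intro V G r y hy a b hab hb
  induction b, hab using Nat.le_induction with
  | base =>
    have e : {x | ∃ i, a ≤ i ∧ i ≤ a ∧ x = y i} = {y a} := by
      ext x
      simp only [Set.mem_ofPred_eq, Set.mem_singleton_iff]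
      constructor
      · rintro ⟨i, h1, h2, rfl⟩
        rw [le_antisymm h2 h1]
      · rintro rfl
        exact ⟨a, le_rfl, le_rfl, rfl⟩
    rw [e]
    exact Conn.singleton G (y a)
  | succ b hab ih =>
    have e : {x | ∃ i, a ≤ i ∧ i ≤ b + 1 ∧ x = y i}
        = insert (y (b + 1)) {x | ∃ i, a ≤ i ∧ i ≤ b ∧ x = y i} := by
      ext x
      simp only [Set.mem_ofPred_eq, Set.mem_insert_iff]
      constructor
      · rintro ⟨i, h1, h2, rfl⟩
        rcases Nat.lt_or_ge b i with h3 | h3
        · have h4 : i = b + 1 := by omega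
          rw [h4]
          exact Or.inl rfl
        · exact Or.inr ⟨i, h1, h3, rfl⟩
      · rintro (rfl | ⟨i, h1, h2, rfl⟩)
        · exact ⟨b + 1, by omega, le_rfl, rfl⟩
        · exact ⟨i, h1, by omega, rfl⟩
    rw [e]
    exact (ih (by omega)).insert ⟨y b, ⟨b, hab, le_rfl, rfl⟩, hy b (by omega)⟩

end Pool.Agent.MPd439b2.CH
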