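import Pool.Agent.Lib.MP_d439b2_co.CH.Spec

/-!
# MP_d439b2_co, CH: every fourth index: every vertex has a position (helper25)
-/

set_option autoImplicit false

namespace Pool.Agent.MPd439b2.CH

open Pool.Agent.MPd439b2 Pool.Agent.MPd439b2.Rep Pool.Agent.MPd439b2.F9 Pool.Agent.MPd439b2.A0

/-- **ThA.** -/
theorem cThA (hC : S_CsB) : S_ThA := by
  classical
  intro N V G v e h hK
  refine ⟨h.comp (fun i => 4 * i) (fun i hi => by omega) (fun i _ j _ hij => by omega), ?_⟩
  intro u
  by_cases hv : ∃ j < 4 * N + 6, u = v j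
  · obtain ⟨j, hj, rfl⟩ := hv
    refine ⟨min N ((j + 3) / 4), min_le_left _ _, true, ?_, ?_⟩
    · intro i hi hp
      have h1 : i < (j + 3) / 4 := lt_of_lt_of_le hp (min_le_right _ _)
      have h2 : 4 * i < j := by omega
      refine ⟨h.vv (4 * i) (by omega) j hj (by omega), fun s hs => ?_⟩
      have h3 := (h.ev hj (show 4 * i < 4 * N + 6 by omega) s).1 hs
      omega
    · intro i hi hp
      have h1 : (j + 3) / 4 < i := by
        rcases min_lt_iff.1 hp with h1 | h1
        · omega
        · exact h1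
      have h2 : j < 4 * i := by omega
      exact ⟨iff_of_true (h.vv (4 * i) (by omega) j hj (by omega)) rfl, fun s =>
        iff_of_true ((h.ev hj (show 4 * i < 4 * N + 6 by omega) s).2 h2) rfl⟩
  by_cases he : ∃ j < 4 * N + 6, ∃ s, u = e s j
  · obtain ⟨j, hj, s, rfl⟩ := he
    refine ⟨min N ((j + 3) / 4), min_le_left _ _, false, ?_, ?_⟩
    · intro i hi hp
      have h1 : i < (j + 3) / 4 := lt_of_lt_of_le hp (min_le_right _ _)
      have h2 : 4 * i < j := by omega
      refine ⟨(h.ve (4 * i) (by omega) j hj s).2 h2, fun t ht => ?_⟩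
      have h3 := ((h.ee (4 * i) (by omega) j hj t s).1 ht).1
      omega
    · intro i hi hp
      have h1 : (j + 3) / 4 < i := by
        rcases min_lt_iff.1 hp with h1 | h1
        · omega
        · exact h1
      have h2 : j < 4 * i := by omega
      refine ⟨iff_of_false (fun h3 => ?_) (by decide), fun t => iff_of_false (fun h3 => ?_)
        (by decide)⟩
      · have h4 := (h.ve (4 * i) (by omega) j hj s).1 h3
        omega
      · have h4 := ((h.ee (4 * i) (by omega) j hj t s).1 h3).1
        omega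
  have hout : Out (4 * N + 6) v e u := fun i hi =>
    ⟨fun h1 => hv ⟨i, hi, h1⟩, fun s h1 => he ⟨i, hi, s, h1⟩⟩
  by_cases hup : ∀ i < N, Up G v e (4 * i) u
  · exact ⟨N, le_rfl, true, fun i hi _ => hup i hi, fun i hi hp => by omega⟩
  push Not at hup
  obtain ⟨k, hk, hk'⟩ := hup
  have hex : ∃ i, ¬ Up G v e i u := ⟨4 * k, hk'⟩
  have hle : Nat.find hex ≤ 4 * k := Nat.find_min' hex hk'
  obtain ⟨κ, hκ⟩ := hC V G (4 * N + 6) v e h hK u hout (Nat.find hex) (by omega)
    (Nat.find_spec hex)
  refine ⟨(Nat.find hex + 3) / 4, by omega, κ, ?_, ?_⟩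
  · intro i hi hp
    have h1 : 4 * i < Nat.find hex := by omega
    by_contra h2
    exact absurd (Nat.find_min' hex (m := 4 * i) h2) (by omega)
  · intro i hi hp
    exact hκ (4 * i) (by omega) (by omega)

end Pool.Agent.MPd439b2.CH
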