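import Pool.Agent.Lib.MP_d439b2_co.CH.Spec

/-!
# MP_d439b2_co, CH/ThB: clean chains exist (helper37)
-/

set_option autoImplicit false

namespace Pool.Agent.MPd439b2.CH

open Pool.Agent.MPd439b2
open Pool.Agent.MPd439b2.Rep
open Pool.Agent.MPd439b2.F9
open Pool.Agent.MPd439b2.A0

theorem cThB (hA : S_ThA) (hL : S_FL) (hC : S_FC) : S_ThB := by
  intro N V G v e hch hfr
  obtain ⟨h1, h2⟩ := hA (4 * N) V G v e (by
    have : 4 * (4 * N) + 6 = 16 * N + 6 := by ring
    rw [this]; exact hch) hfr
  choose p hp κ hpos using h2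
  have far : ∀ u u', p u + 4 ≤ p u' → (G.Adj u u' ↔ κ u = true) := by
    intro u u' huu
    have hle := hp u'
    have c : ∀ d, 1 ≤ d → d ≤ 3 → Co G (fun i => v (4 * i)) (fun s i => e s (4 * i)) (κ u)
        (p u + d) u := fun d hd1 hd3 => (hpos u).2 (p u + d) (by omega) (by omega)
    have w : ∀ d, 1 ≤ d → d ≤ 3 → Up G (fun i => v (4 * i)) (fun s i => e s (4 * i))
        (p u + d) u' := fun d hd1 hd3 => (hpos u').1 (p u + d) (by omega) (by omega)
    cases hk : κ u with
    | false =>
      rw [hk] at c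
      have := hL V G (4 * N) _ _ h1 hfr (p u + 1) (p u + 2) (p u + 3) (by omega) (by omega)
        (by omega) u u' (c 1 (by omega) (by omega)) (c 2 (by omega) (by omega))
        (c 3 (by omega) (by omega)) (w 1 (by omega) (by omega)) (w 2 (by omega) (by omega))
        (w 3 (by omega) (by omega))
      exact ⟨fun h => absurd h this, fun h => absurd h (by decide)⟩
    | true =>
      rw [hk] at c
      have := hC V G (4 * N) _ _ h1 hfr (p u + 1) (p u + 2) (by omega) (by omega)
        u u' (c 1 (by omega) (by omega)) (c 2 (by omega) (by omega))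
        (w 1 (by omega) (by omega)) (w 2 (by omega) (by omega))
      exact ⟨fun _ => rfl, fun _ => this⟩
  refine ⟨fun i => v (4 * (4 * i)), fun s i => e s (4 * (4 * i)), fun u => (p u + 3) / 4, κ,
    ⟨?_, ?_, ?_, ?_⟩⟩
  · exact h1.comp (fun i => 4 * i) (fun i hi => by omega) (fun i hi j hj hij => by omega)
  · intro u
    refine ⟨fun i hi hlt => ?_, fun i hi hlt => ?_⟩
    · exact (hpos u).1 (4 * i) (by omega) (by omega)
    · exact (hpos u).2 (4 * i) (by omega) (by omega)
  · intro u
    have := hp u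
    show (p u + 3) / 4 ≤ N
    omega
  · intro u u' huu
    have huu' : (p u + 3) / 4 + 2 ≤ (p u' + 3) / 4 := huu
    exact far u u' (by omega)

end Pool.Agent.MPd439b2.CH
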