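import Pool.Agent.Lib.MP_d439b2_co.CH.Spec

set_option autoImplicit false

namespace Pool.Agent.MPd439b2.CH

open Pool.Agent.MPd439b2 Pool.Agent.MPd439b2.Rep Pool.Agent.MPd439b2.F9 Pool.Agent.MPd439b2.A0

theorem cTy (hP : S_Pr) (hC : S_Cd) : S_Ty := by
  intro V G C L K h4 h3 hK hTK
  by_cases hfirst : ∀ c ∈ BB G C L K, ∀ c' ∈ BB G C L K, ∀ z ∈ L, z ∉ K →
      (G.Adj c z ↔ G.Adj c' z)
  · exact Or.inl hfirst
  right
  push Not at hfirst
  obtain ⟨c, hc, c', hc', z₀, hz₀L, hz₀K, hz₀⟩ := hfirst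
  have hne0 : ¬ (G.Adj c z₀ ↔ G.Adj c' z₀) := by
    intro h
    rcases hz₀ with ⟨h1, h2⟩ | ⟨h1, h2⟩
    · exact h2 (h.1 h1)
    · exact h1 (h.2 h2)
  have hcc' : c ≠ c' := by
    rintro rfl
    exact hne0 Iff.rfl
  have hdis : ∀ K', IsComp G L K' → K ≠ K' → Disjoint K K' := fun K' hK' hne =>
    ((hC V G L).2 K K' hK hK' hne).1
  rcases hP V G C L K h4 h3 hK hTK c hc c' hc' hcc' with h | ⟨K₁, hK₁, hss, hcT, huniq, hag⟩
  · exact absurd (h.1 z₀ hz₀L hz₀K) hne0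
  have hKK₁ : K ≠ K₁ := by
    rintro rfl
    exact hss.2 le_rfl
  have hd₁ := hdis K₁ hK₁ hKK₁
  have hKL : K ⊆ L := hK.1
  have claim : ∀ d ∈ BB G C L K, ∀ z ∈ L, z ∉ K₁ → (G.Adj c z ↔ G.Adj d z) := by
    intro d hd
    by_cases hcd : c = d
    · subst hcd
      intro z _ _
      exact Iff.rfl
    by_cases hc'd : c' = d
    · subst hc'd
      exact hag
    rcases hP V G C L K h4 h3 hK hTK c hc d hd hcd with ⟨hout, z, hzK, hz⟩ |
      ⟨K₁', hK₁', hss', hcT', -, hag'⟩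
    · exfalso
      rcases hP V G C L K h4 h3 hK hTK c' hc' d hd hc'd with ⟨hout', -⟩ |
        ⟨K₁', hK₁', hss', -, -, hag'⟩
      · exact hne0 ((hout z₀ hz₀L hz₀K).trans (hout' z₀ hz₀L hz₀K).symm)
      · have hKK₁' : K ≠ K₁' := by
          rintro rfl
          exact hss'.2 le_rfl
        have hd₁' := hdis K₁' hK₁' hKK₁'
        have hz1 : z ∉ K₁ := fun h => Set.disjoint_left.1 hd₁ hzK h
        have hz1' : z ∉ K₁' := fun h => Set.disjoint_left.1 hd₁' hzK h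
        exact hz ((hag z (hKL hzK) hz1).trans (hag' z (hKL hzK) hz1'))
    · have : K₁' = K₁ := by
        by_contra hne
        exact hcT' (huniq K₁' hK₁' hss' hne)
      subst this
      exact hag'
  exact ⟨K₁, hK₁, hss, fun d hd d' hd' z hz hz1 =>
    (claim d hd z hz hz1).symm.trans (claim d' hd' z hz hz1)⟩

end Pool.Agent.MPd439b2.CH
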