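import Pool.Agent.Lib.MP_d439b2_co.CH.Spec
import Pool.Agent.Lib.MP_d439b2_co.ON.JB

/-!
# MP_d439b2_co, CH/Wn: there is a good place
-/

set_option autoImplicit false

namespace Pool.Agent.MPd439b2.CH

open Pool.Agent.MPd439b2
open Pool.Agent.MPd439b2.Rep
open Pool.Agent.MPd439b2.F9
open Pool.Agent.MPd439b2.A0

private theorem Wn_tch {V : Type} {G : SimpleGraph V} {x y : V} (h : G.Adj x y) :
    Tch G {x} {y} := ⟨x, rfl, y, rfl, h⟩

private theorem Wn_ntch {V : Type} {G : SimpleGraph V} {x y : V} (h : ¬ G.Adj x y) :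
    ¬ Tch G {x} {y} := by
  rintro ⟨z, hz, y', hy', h'⟩
  rw [Set.mem_singleton_iff] at hy' hz
  subst hz hy'
  exact h h'

private theorem Wn_dis {V : Type} {x y : V} (h : x ≠ y) : Disjoint ({x} : Set V) {y} :=
  Set.disjoint_singleton.2 h

theorem cWn : S_Wn := by
  intro t V G n v e q κ hC hJ m₀ hm₀ hn
  by_contra hcon
  push Not at hcon
  have h1 : ∀ j ≤ t, ¬ Win G q κ (m₀ + 16 * j) := fun j hj =>
    hcon (m₀ + 16 * j) (by omega) (by omega)
  have h2 : ∀ j, ∃ p : V × V, j ≤ t → κ p.1 = true ∧ κ p.2 = true ∧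
      m₀ + 16 * j ≤ q p.1 + 9 ∧ q p.1 ≤ m₀ + 16 * j + 4 ∧ m₀ + 16 * j ≤ q p.2 + 9 ∧
      q p.2 ≤ m₀ + 16 * j + 4 ∧ p.1 ≠ p.2 ∧ ¬ G.Adj p.1 p.2 := by
    intro j
    by_cases hj : j ≤ t
    · have := h1 j hj
      unfold Win at this
      push Not at this
      obtain ⟨u, u', a1, a2, a3, a4, a5, a6, a7, a8⟩ := this
      exact ⟨(u, u'), fun _ => ⟨a1, a2, a3, a4, a5, a6, a7, a8⟩⟩
    · exact ⟨(v 0, v 0), fun h => absurd h hj⟩
  choose p hp using h2
  have hch := hC.ch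
  have i1 : n - 1 < n := by omega
  have i2 : n - 2 < n := by omega
  have i3 : n - 2 ≠ n - 1 := by omega
  have hadj : ∀ u, κ u = true → q u < n - 2 → ∀ s,
      G.Adj (e s (n - 1)) u ∧ G.Adj (e s (n - 2)) u := by
    intro u hk hq s
    exact ⟨(((hC.pos u).2 (n - 1) i1 (by omega)).2 s).2 hk,
      (((hC.pos u).2 (n - 2) i2 (by omega)).2 s).2 hk⟩
  have hfar : ∀ u u', κ u = true → q u + 2 ≤ q u' → G.Adj u u' := fun u u' hk hq =>
    (hC.far u u' hq).2 hk
  have hcc : ∀ i < t, ∀ j < t, i ≠ j → G.Adj (p i).1 (p j).1 ∧ G.Adj (p i).1 (p j).2 ∧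
      G.Adj (p i).2 (p j).2 := by
    intro i hi j hj hij
    obtain ⟨a1, a2, a3, a4, a5, a6, a7, a8⟩ := hp i hi.le
    obtain ⟨b1, b2, b3, b4, b5, b6, b7, b8⟩ := hp j hj.le
    rcases lt_or_gt_of_ne hij with h | h
    · exact ⟨hfar _ _ a1 (by omega), hfar _ _ a1 (by omega), hfar _ _ a2 (by omega)⟩
    · exact ⟨(hfar _ _ b1 (by omega)).symm, (hfar _ _ b2 (by omega)).symm,
        (hfar _ _ b2 (by omega)).symm⟩
  set X : ℕ → V := fun a => if a = 0 then e false (n - 2) else if a = 1 then e false (n - 1)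
    else e true (n - 1) with hX
  have x01 : ¬ G.Adj (X 0) (X 1) := by
    simp only [hX]
    intro h
    exact i3 ((hch.ee _ i2 _ i1 false false).1 h).1
  have x02 : ¬ G.Adj (X 0) (X 2) := by
    simp only [hX]
    intro h
    exact i3 ((hch.ee _ i2 _ i1 false true).1 h).1
  have x12 : G.Adj (X 1) (X 2) := by
    simp only [hX]
    exact hch.adj_ft i1
  have n01 : X 0 ≠ X 1 := by
    simp only [hX]
    exact hch.nee i2 i1 i3
  have n02 : X 0 ≠ X 2 := by
    simp only [hX]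
    exact hch.nee i2 i1 i3
  have hXc : ∀ a < 3, ∀ i < t, G.Adj (X a) (p i).1 ∧ G.Adj (X a) (p i).2 := by
    intro a ha i hi
    obtain ⟨a1, a2, a3, a4, a5, a6, a7, a8⟩ := hp i hi.le
    have k1 := hadj _ a1 (by omega)
    have k2 := hadj _ a2 (by omega)
    simp only [hX]
    split_ifs
    · exact ⟨(k1 false).2, (k2 false).2⟩
    · exact ⟨(k1 false).1, (k2 false).1⟩
    · exact ⟨(k1 true).1, (k2 true).1⟩
  apply hJ
  refine Pool.Agent.MPd439b2.ON.oJB t V G (fun a => {X a}) (fun i => {(p i).1})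
    (fun i => {(p i).2}) ?_ ?_ ?_ ?_ ?_ ?_ ?_ ?_ ?_ ?_ ?_ ?_
  · exact fun a _ => Conn.singleton G _
  · exact fun i _ => ⟨Conn.singleton G _, Conn.singleton G _⟩
  · intro a ha b hb hab
    apply Wn_dis
    have n12 := x12.ne
    interval_cases a <;> interval_cases b <;> first
      | exact absurd rfl hab
      | exact n01
      | exact n01.symm
      | exact n02
      | exact n02.symm
      | exact n12
      | exact n12.symm
  · exact fun a ha i hi => ⟨Wn_dis (hXc a ha i hi).1.ne, Wn_dis (hXc a ha i hi).2.ne⟩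
  · exact fun i hi => Wn_dis (hp i hi.le).2.2.2.2.2.2.1
  · intro i hi j hj hij
    obtain ⟨b1, b2, b3⟩ := hcc i hi j hj hij
    exact ⟨Wn_dis b1.ne, Wn_dis b2.ne, Wn_dis b3.ne⟩
  · exact Wn_ntch x01
  · exact Wn_ntch x02
  · exact Wn_tch x12
  · exact fun a ha i hi => ⟨Wn_tch (hXc a ha i hi).1, Wn_tch (hXc a ha i hi).2⟩
  · exact fun i hi => Wn_ntch (hp i hi.le).2.2.2.2.2.2.2
  · intro i hi j hj hij
    obtain ⟨b1, b2, b3⟩ := hcc i hi j hj hij
    exact ⟨Wn_tch b1, Wn_tch b2, Wn_tch b3⟩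

end Pool.Agent.MPd439b2.CH
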