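import Pool.Agent.Lib.MP_d439b2_co.CH.R2
import Pool.Agent.Lib.MP_d439b2_co.CH.R3
import Pool.Agent.Lib.MP_d439b2_co.CH.R4
import Pool.Agent.Lib.MP_d439b2_co.CH.R5
import Pool.Agent.Lib.MP_d439b2_co.CH.R9
import Pool.Agent.Lib.MP_d439b2_co.CH.RT
import Pool.Agent.Lib.MP_d439b2_co.CH.CsA
import Pool.Agent.Lib.MP_d439b2_co.CH.CsB
import Pool.Agent.Lib.MP_d439b2_co.CH.ThA
import Pool.Agent.Lib.MP_d439b2_co.CH.FL
import Pool.Agent.Lib.MP_d439b2_co.CH.FC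
import Pool.Agent.Lib.MP_d439b2_co.CH.ThB
import Pool.Agent.Lib.MP_d439b2_co.CH.Q
import Pool.Agent.Lib.MP_d439b2_co.CH.Wn
import Pool.Agent.Lib.MP_d439b2_co.CH.Rt
import Pool.Agent.Lib.MP_d439b2_co.CH.Pth
import Pool.Agent.Lib.MP_d439b2_co.CH.Seg
import Pool.Agent.Lib.MP_d439b2_co.CH.LH
import Pool.Agent.Lib.MP_d439b2_co.CH.Cd
import Pool.Agent.Lib.MP_d439b2_co.CH.In
import Pool.Agent.Lib.MP_d439b2_co.CH.Hf
import Pool.Agent.Lib.MP_d439b2_co.CH.Ht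
import Pool.Agent.Lib.MP_d439b2_co.CH.Ne
import Pool.Agent.Lib.MP_d439b2_co.CH.Kz
import Pool.Agent.Lib.MP_d439b2_co.CH.Ky
import Pool.Agent.Lib.MP_d439b2_co.CH.Fa
import Pool.Agent.Lib.MP_d439b2_co.CH.Pr
import Pool.Agent.Lib.MP_d439b2_co.CH.Ty
import Pool.Agent.Lib.MP_d439b2_co.CH.Ab
import Pool.Agent.Lib.MP_d439b2_co.CH.Fi

/-!
# Long chains do not exist in linked graphs without `K401` and `JP t`

Assembly of the modules of `CH/Spec.lean`.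
-/

namespace Pool.Agent.MPd439b2.CH

open Pool.Agent.MPd439b2
open Pool.Agent.MPd439b2.Rep
open Pool.Agent.MPd439b2.F9
open Pool.Agent.MPd439b2.A0

theorem oCsA : S_CsA := cCsA cR2 cR3 cR4 cR5

theorem oCsB : S_CsB := cCsB cR9 cRT oCsA

theorem oThB : S_ThB := cThB (cThA oCsB) cFL cFC

theorem oRt : S_Rt := cRt cQ

theorem oHf : S_Hf := cHf oRt cCd

theorem oHt : S_Ht := cHt oRt cCd (cIn cCd)

theorem oKy : S_Ky := cKy cQ (cLH cQ oRt cPth cSeg) cCd oHf (cKz cNe)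

theorem oFa : S_Fa := cFa cQ oHt

theorem oAb : S_Ab := cAb cCd cNe (cTy (cPr cCd) cCd)

theorem oFi : S_Fi := cFi cQ cCd cNe oHf oHt oKy oFa oAb

theorem cCH (h1 : S_ThB) (h2 : S_Wn) (h3 : S_Fi) : S_CH := by
  intro t B
  obtain ⟨N, hN⟩ : ∃ N, N = (B + 10) + 16 * t + B + 20 := ⟨_, rfl⟩
  refine ⟨16 * N + 6, ?_⟩
  intro V _ G hF v e hch
  obtain ⟨v', e', q, κ, hc⟩ := h1 N V G v e hch hF.1
  obtain ⟨m, hm1, hm2, hw⟩ := h2 t V G N v' e' q κ hc hF.2 (B + 10) (by omega) (by omega)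
  exact h3 V G N v' e' q κ hc hF.1 m B hw (by omega) (by omega)

theorem cMp (h : S_CH) : S_Mp := by
  intro t β
  obtain ⟨n, hn⟩ := h t (β 8)
  refine ⟨8, n, ?_⟩
  intro V _ G hF hL v e hch
  obtain ⟨X, hX, h1, h2⟩ := hn V G hF v e hch
  exact link_false hL (le_refl 8) hX h1 h2

/-- Long chains give balanced cuts of rank at most `8`. -/
theorem oCH : S_CH := cCH oThB cWn oFi

/-- For linked graphs there are no long chains. -/
theorem oMp : S_Mp := cMp oCH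

end Pool.Agent.MPd439b2.CH
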