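import Pool.Agent.Lib.MP_d439b2_co.CH.Spec

/-!
# MP_d439b2_co, CH/Ht: two vertices and two components (helper82)
-/

set_option autoImplicit false

namespace Pool.Agent.MPd439b2.CH

open Pool.Agent.MPd439b2
open Pool.Agent.MPd439b2.Rep
open Pool.Agent.MPd439b2.F9
open Pool.Agent.MPd439b2.A0

theorem cHt (hR : S_Rt) (hC : S_Cd) (hI : S_In) : S_Ht := by
  intro V G n v e q κ h hn hK4 m K K' hK hK' hne c hc c' hc' hcc hx hx' z hz hcz hc'z z' hz'
  obtain ⟨x, hxK, hcx⟩ := hx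
  obtain ⟨x', hxK', hcx'⟩ := hx'
  by_contra hcon
  have hcz' : ¬ G.Adj c z' := fun h1 => hcon (Or.inl h1)
  have hc'z' : ¬ G.Adj c' z' := fun h1 => hcon (Or.inr h1)
  obtain ⟨hD, hT⟩ := (hC V G (Ls n e q κ m)).2 K K' hK hK' hne
  obtain ⟨A, hAK, hzA, hxA, hcA, a, haA, haz⟩ := hI V G K x z hK.2.1 hxK hz
    (fun h1 => hcz (h1 ▸ hcx))
  obtain ⟨A', hAK', hzA', hxA', hcA', a', haA', haz'⟩ := hI V G K' x' z' hK'.2.1 hxK' hz'
    (fun h1 => hc'z' (h1 ▸ hcx'))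
  have kK : ∀ y ∈ K, κ y = false ∧ q y + 3 ≤ n := fun y hy => ⟨(hK.1 hy).1, (hK.1 hy).2.1⟩
  have kK' : ∀ y ∈ K', κ y = false ∧ q y + 3 ≤ n := fun y hy => ⟨(hK'.1 hy).1, (hK'.1 hy).2.1⟩
  have ncl : ∀ y ∈ K ∪ K', y ≠ c ∧ y ≠ c' := by
    intro y hy
    have h1 : κ y = false := hy.elim (fun h2 => (kK y h2).1) (fun h2 => (kK' y h2).1)
    constructor
    · rintro rfl
      rw [hc.1] at h1
      exact Bool.noConfusion h1
    · rintro rfl
      rw [hc'.1] at h1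
      exact Bool.noConfusion h1
  have nT : ∀ y ∈ K, ∀ y' ∈ K', ¬ G.Adj y y' := fun y hy y' hy' h1 => hT ⟨y, hy, y', hy', h1⟩
  have nE : ∀ y ∈ K, ∀ y' ∈ K', y ≠ y' := by
    rintro y hy y' hy' rfl
    exact (Set.disjoint_left.1 hD) hy hy'
  refine hR V G n v e q κ h hn hK4 (insert c A) (insert c' A') {z} {z'}
    (hcA.insert ⟨x, hxA, hcx.symm⟩) (hcA'.insert ⟨x', hxA', hcx'.symm⟩)
    (Conn.singleton G z) (Conn.singleton G z') ?_ ⟨c, Or.inl rfl, hc.1⟩ ⟨c', Or.inl rfl, hc'.1⟩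
    ?_ ?_ ?_ ?_ ?_ ?_ ?_ ?_ ?_ ?_ ?_ ?_
  · rintro y ((rfl | hy) | (rfl | hy))
    · exact hc.2
    · exact (kK y (hAK hy)).2
    · exact hc'.2
    · exact (kK' y (hAK' hy)).2
  · rintro y (hy | hy)
    · rw [Set.mem_singleton_iff] at hy
      subst hy
      exact kK _ hz
    · rw [Set.mem_singleton_iff] at hy
      subst hy
      exact kK' _ hz'
  · rw [Set.disjoint_left]
    rintro y (rfl | hy) (rfl | hy')
    · exact hcc rfl
    · exact (ncl y (Or.inr (hAK' hy'))).1 rfl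
    · exact (ncl y (Or.inl (hAK hy))).2 rfl
    · exact nE y (hAK hy) y (hAK' hy') rfl
  · rw [Set.disjoint_singleton_right]
    rintro (h1 | h1)
    · exact (ncl z (Or.inl hz)).1 h1
    · exact hzA h1
  · rw [Set.disjoint_singleton_right]
    rintro (h1 | h1)
    · exact (ncl z' (Or.inr hz')).1 h1
    · exact nE z' (hAK h1) z' hz' rfl
  · rw [Set.disjoint_singleton_right]
    rintro (h1 | h1)
    · exact (ncl z (Or.inl hz)).2 h1
    · exact nE z hz z (hAK' h1) rfl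
  · rw [Set.disjoint_singleton_right]
    rintro (h1 | h1)
    · exact (ncl z' (Or.inr hz')).2 h1
    · exact hzA' h1
  · rw [Set.disjoint_singleton_right]
    intro h1
    rw [Set.mem_singleton_iff] at h1
    exact nE z hz z' hz' h1.symm
  · exact ⟨a, Or.inr haA, z, rfl, haz⟩
  · rintro ⟨y, (rfl | hy), w, hw, hyw⟩
    · rw [Set.mem_singleton_iff] at hw
      subst hw
      exact hc'z hyw
    · rw [Set.mem_singleton_iff] at hw
      subst hw
      exact nT w hz y (hAK' hy) hyw.symm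
  · exact ⟨a', Or.inr haA', z', rfl, haz'⟩
  · rintro ⟨y, (rfl | hy), w, hw, hyw⟩
    · rw [Set.mem_singleton_iff] at hw
      subst hw
      exact hcz' hyw
    · rw [Set.mem_singleton_iff] at hw
      subst hw
      exact nT y (hAK hy) w hz' hyw
  · rintro ⟨y, hy, w, hw, hyw⟩
    rw [Set.mem_singleton_iff] at hy hw
    subst hy hw
    exact nT y hz w hz' hyw

end Pool.Agent.MPd439b2.CH
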