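import Pool.Agent.Lib.MP_d439b2_co.CH.Spec

/-!
# MP_d439b2_co, CH, R2
-/

set_option autoImplicit false

namespace Pool.Agent.MPd439b2.CH

open Pool.Agent.MPd439b2
open Pool.Agent.MPd439b2.Rep
open Pool.Agent.MPd439b2.F9
open Pool.Agent.MPd439b2.A0

theorem cR2 : S_R2 := by
  intro V G n v e h hIMS u hu i j k hij hjk hkn s t r u1 n1 u2
  have hi : i < n := by omega
  have hj : j < n := by omega
  have ne : ∀ {a b : ℕ}, a < n → b < n → a ≠ b → ∀ s t, ¬ G.Adj (e s a) (e t b) :=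
    fun ha hb hab s t hh => hab ((h.ee _ ha _ hb s t).1 hh).1
  have nv : ∀ {a b : ℕ}, a < n → b < n → ¬ a < b → ∀ s, ¬ G.Adj (v a) (e s b) :=
    fun ha hb hab s hh => hab ((h.ve _ ha _ hb s).1 hh)
  exact hIMS (eng (a := v i) (a' := v i) (b := u) (b' := e r k) (c := v j) (d := e (!r) k)
    (p := e t j) (r := e s i) (Or.inl rfl) (Or.inr u2)
    (Or.inr (Or.inl ((h.ve i hi k hkn r).2 (by omega)))) (Or.inl (h.vv i hi j hj (by omega)))
    (Or.inl ((h.ve i hi k hkn _).2 (by omega))) (Or.inr ((h.ev hj hkn r).2 hjk))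
    (Or.inr (h.adj_e hkn r)) ((h.ve j hj k hkn _).2 hjk) (Or.inl ((h.ve i hi j hj t).2 hij))
    (Or.inl u1) (nv hi hi (by omega) s) (nv hi hi (by omega) s) n1 (ne hkn hj (by omega) r t)
    (nv hj hj (by omega) t) (nv hj hi (by omega) s) (ne hkn hj (by omega) _ t)
    (ne hkn hi (by omega) _ s) (ne hj hi (by omega) t s)
    ⟨(hu i hi).1.symm, h.nve hi hkn r, (hu i hi).1.symm, h.nve hi hkn r⟩
    ⟨h.nvv hi hj (by omega), h.nvv hi hj (by omega)⟩ ⟨h.nve hi hkn _, h.nve hi hkn _⟩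
    ⟨h.nve hi hj _, h.nve hi hj _⟩ ⟨h.nve hi hi _, h.nve hi hi _⟩
    ⟨(hu j hj).1, (h.nve hj hkn r).symm⟩ ⟨(hu k hkn).2 _, h.ft hkn r⟩
    ⟨(hu j hj).2 _, h.nee hkn hj (by omega)⟩ ⟨(hu i hi).2 _, h.nee hkn hi (by omega)⟩
    (h.nve hj hj _) (h.nve hj hi _) (h.nee hkn hj (by omega)) (h.nee hkn hi (by omega)))

end Pool.Agent.MPd439b2.CH
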