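import Pool.Agent.Lib.MP_d439b2_co.CH.Base

/-!
# MP_d439b2_co, CH: chains give balanced cuts of rank at most eight (`K4:0,1`; note 2883 of helper53, sections 2-7)

**Theorem.** For all `t, B` there is `n`: a finite graph without the induced minors `K4:0,1` and
`J_t = co(P_3 + t P_2)` which contains a CHAIN of length `n` (`Ch G n v e`) has a set `X` with cut-rank at most `8`
and `B < |X|`, `B < |Xᶜ|`.

Every `S_...` is a statement to be proved in its own file; the docstring contains the complete proof; the used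
statements are hypotheses of the theorem, in the order given in `(Uses ...)`.  The theorem for `S_X` is
called `cX` and is in the file `CH/X.lean`.  `x ~ y` means `G.Adj x y`.  `eng` (in `Base.lean`) is a builder for small
models: the notation `[a, a' | b, b' | c | d ; p, r]` means `eng` with these vertices (`p` is pendant at `{a, a'}`,
`r` at `{b, b'}`); `[a | b, b' | ...]` means `a' = a`.  All the non-trivial facts on the chain are `Ch.vv`,
`Ch.ee`, `Ch.ve`, `Ch.ev`, `Ch.adj_e`, `Ch.nvv`, `Ch.nve`, `Ch.nee`, `Ch.ft`.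
-/

set_option autoImplicit false

namespace Pool.Agent.MPd439b2.CH

open Pool.Agent.MPd439b2
open Pool.Agent.MPd439b2.Rep
open Pool.Agent.MPd439b2.F9
open Pool.Agent.MPd439b2.A0

/-! ### one more vertex -/

/-- **R2.** Proof. `eng` with `[v i | u, e r k | v j | e (!r) k ; e t j, e s i]`.  (`v i ~ e r k`, `v i ~ v j`,
`v i ~ e (!r) k`, `e r k ~ v j`, `e r k ~ e (!r) k`, `v j ~ e (!r) k`, `v i ~ e t j`, `u ~ e s i`; `v i ≁ e s i`,
`u ≁ e t j`, `e r k ≁ e t j`, `v j ≁ e t j`, `v j ≁ e s i`, and no edges between different pairs.) -/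
def S_R2 : Prop := ∀ (V : Type) (G : SimpleGraph V) (n : ℕ) (v : ℕ → V) (e : Bool → ℕ → V),
  Ch G n v e → ¬ IMS K401 G Set.univ → ∀ u, Out n v e u → ∀ i j k, i < j → j < k → k < n →
    ∀ s t r : Bool, G.Adj u (e s i) → ¬ G.Adj u (e t j) → ¬ G.Adj u (e r k)

/-- **R3.** Proof. `eng` with `[v i | v l, u | e false k | e true k ; e t j, e s i]`.  (`v l ≁ e t j` because
`j ≤ l`, `v l ~ e false k` because `l < k`.) -/
def S_R3 : Prop := ∀ (V : Type) (G : SimpleGraph V) (n : ℕ) (v : ℕ → V) (e : Bool → ℕ → V),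
  Ch G n v e → ¬ IMS K401 G Set.univ → ∀ u, Out n v e u → ∀ i j l k, i < j → j ≤ l → l < k → k < n →
    ∀ s t : Bool, G.Adj u (e s i) → ¬ G.Adj u (e t j) → ¬ G.Adj u (v l)

/-- **R4.** Proof. `eng` with `[e s i, u | v i, v j | e false j | e true j ; e (!s) i, e t k]`. -/
def S_R4 : Prop := ∀ (V : Type) (G : SimpleGraph V) (n : ℕ) (v : ℕ → V) (e : Bool → ℕ → V),
  Ch G n v e → ¬ IMS K401 G Set.univ → ∀ u, Out n v e u → ∀ i j k, i < j → j < k → k < n →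
    ∀ s t : Bool, G.Adj u (e s i) → (∀ r, G.Adj u (e r j)) → (G.Adj u (v i) ∨ G.Adj u (v j)) →
      G.Adj u (e t k)

/-- **R5.** Proof. `eng` with `[v i, e r k | e s i, u | e false j | e true j ; v l, e (!s) i]`.  (`v l ≁ e _ i`,
`v l ≁ e _ j` because `i < j ≤ l`.) -/
def S_R5 : Prop := ∀ (V : Type) (G : SimpleGraph V) (n : ℕ) (v : ℕ → V) (e : Bool → ℕ → V),
  Ch G n v e → ¬ IMS K401 G Set.univ → ∀ u, Out n v e u → ∀ i j k l, i < j → j < k → k < n → j ≤ l →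
    l < n → ∀ s r : Bool, G.Adj u (e s i) → (∀ t, G.Adj u (e t j)) → G.Adj u (e r k) →
      G.Adj u (v l)

/-- **R9.** Proof. `eng` with `[v i | v j, v l | e false k | e true k ; e t j, u]`.  (`v l ≁ e t j` because
`j ≤ l`; if `j = l` then `v j = v l`.) -/
def S_R9 : Prop := ∀ (V : Type) (G : SimpleGraph V) (n : ℕ) (v : ℕ → V) (e : Bool → ℕ → V),
  Ch G n v e → ¬ IMS K401 G Set.univ → ∀ u, Out n v e u → ∀ i j l k, i < j → j ≤ l → l < n → j < k →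
    k < n → ∀ t : Bool, ¬ G.Adj u (v i) → ¬ G.Adj u (e t j) → (∀ s, ¬ G.Adj u (e s k)) →
      ¬ G.Adj u (v l)

/-- **RT.** Proof. `eng` with `[v i | e s l | v j | v k ; e t j, u]`. -/
def S_RT : Prop := ∀ (V : Type) (G : SimpleGraph V) (n : ℕ) (v : ℕ → V) (e : Bool → ℕ → V),
  Ch G n v e → ¬ IMS K401 G Set.univ → ∀ u, Out n v e u → ∀ i j k l, i < j → j < k → k < l → l < n →
    ∀ s t : Bool, ¬ G.Adj u (v i) → ¬ G.Adj u (v j) → ¬ G.Adj u (v k) → ¬ G.Adj u (e t j) →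
      ¬ G.Adj u (e s l)

/-- **CsA.** A vertex which touches the pair `i` is constant from `i + 2` on.  (Uses `S_R2`, `S_R3`, `S_R4`, `S_R5`.)

Proof. Let `u ~ e s i`.  Case 1: `u ~ e r k` for some `k` with `i + 2 ≤ k < n`.  Put `j₀ = i + 1`.  By R2 `u` sees both
`e t j₀`; by R5 (`i, j₀, k, l`) `u ~ v l` for all `l` with `j₀ ≤ l < n`; by R4 (`i, j₀, l`) `u ~ e t l` for all `l` with
`j₀ < l < n`.  So `κ = true`.  Case 2: `u` misses all `e r k`, `i + 2 ≤ k < n`.  If `i + 2 ≤ l`, `l + 1 < n` then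
`u ≁ v l` by R3 with `i`, `j = i + 2`, `l`, `k = l + 1`.  So `κ = false`. -/
def S_CsA : Prop := ∀ (V : Type) (G : SimpleGraph V) (n : ℕ) (v : ℕ → V) (e : Bool → ℕ → V),
  Ch G n v e → ¬ IMS K401 G Set.univ → ∀ u, Out n v e u → ∀ i < n, ∀ s : Bool, G.Adj u (e s i) →
    ∃ κ : Bool, ∀ j, i + 2 ≤ j → j + 1 < n → Co G v e κ j u

/-- **CsB.** A vertex which is not `Up` at `i` is constant from `i + 4` on.  (Uses `S_R9`, `S_RT`, `S_CsA`.)

Proof. If `i + 5 ≥ n` there is nothing to prove.  Let `i + 5 < n`.  (a) `u` sees some `e s i`: CsA for `i`.  (b) `u` misses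
both `e s i`; then `u ≁ v i` (not `Up`).  (b1) `u` sees some `e s (i + 1)`: CsA for `i + 1`.  (b2) `u` sees some
`e s (i + 2)`: CsA for `i + 2`.  (b3) Otherwise `u ≁ v l` for all `l` with `i + 1 ≤ l < n` by R9 (`i`, `j = i + 1`, `l`,
`k = i + 2`), and `u ≁ e s l` for all `l` with `i + 3 ≤ l < n` by RT (`i`, `i + 1`, `i + 2`, `l`).  `κ = false`. -/
def S_CsB : Prop := ∀ (V : Type) (G : SimpleGraph V) (n : ℕ) (v : ℕ → V) (e : Bool → ℕ → V),
  Ch G n v e → ¬ IMS K401 G Set.univ → ∀ u, Out n v e u → ∀ i < n, ¬ Up G v e i u →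
    ∃ κ : Bool, ∀ j, i + 4 ≤ j → j + 1 < n → Co G v e κ j u

/-- **ThA.** Every fourth index: every vertex has a position.  (Uses `S_CsB`.)

Proof. Put `n = 4 N + 6`.  `Ch.comp` for the subsequence.  `u = v j` (`j < n`): `u` is `Up` at all indices `4 i < j` and
`Co true` at all `4 i > j`; `p = min N ((j + 3) / 4)`, `κ = true`.  `u = e s j`: `Up` at the `4 i < j`, `Co false` at the
`4 i > j`; the same `p`, `κ = false`.  `u` outside: if `u` is `Up` at all `4 i`, `i < N`, then `p = N`.  Otherwise let `i₀` be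
the first index `< n` at which `u` is not `Up`; `i₀ ≤ 4 (N - 1)`; `p = (i₀ + 3) / 4 ≤ N`: for `i < p`: `4 i < i₀`; for `i > p`:
`4 i ≥ i₀ + 4` and `4 i + 1 < n`, so `Co κ` with the `κ` of CsB for `i₀`. -/
def S_ThA : Prop := ∀ (N : ℕ) (V : Type) (G : SimpleGraph V) (v : ℕ → V) (e : Bool → ℕ → V),
  Ch G (4 * N + 6) v e → ¬ IMS K401 G Set.univ →
    Ch G N (fun i => v (4 * i)) (fun s i => e s (4 * i)) ∧
      ∀ u, ∃ p ≤ N, ∃ κ : Bool, Pos G N (fun i => v (4 * i)) (fun s i => e s (4 * i)) u p κ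

/-- **FL.** Proof. Suppose `u ~ u'`.  `eng` with `[v j, u' | v i, e false j | e false k | e true k ; u, e true j]`.
(Different: `u' ≠ v i`, `v j`, `v k` by `Up`; `u' ≠ e s l` for `l ∈ {i, j, k}` because `e (!s) l ≁ u'`; `u ≠ v j` because
`v i ≁ u`, `v i ~ v j`, the same for `v i`; `u ≠ e s l` because `e (!s) l ≁ u`; `u ≠ u'` because `v i ≁ u`, `v i ~ u'`.) -/
def S_FL : Prop := ∀ (V : Type) (G : SimpleGraph V) (n : ℕ) (v : ℕ → V) (e : Bool → ℕ → V),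
  Ch G n v e → ¬ IMS K401 G Set.univ → ∀ i j k, i < j → j < k → k < n → ∀ u u' : V,
    Co G v e false i u → Co G v e false j u → Co G v e false k u →
      Up G v e i u' → Up G v e j u' → Up G v e k u' → ¬ G.Adj u u'

/-- **FC.** Proof. Suppose `u ≁ u'`.  `eng` with `[v i | u | e false j | e true j ; u', e false i]`. -/
def S_FC : Prop := ∀ (V : Type) (G : SimpleGraph V) (n : ℕ) (v : ℕ → V) (e : Bool → ℕ → V),
  Ch G n v e → ¬ IMS K401 G Set.univ → ∀ i j, i < j → j < n → ∀ u u' : V,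
    Co G v e true i u → Co G v e true j u → Up G v e i u' → Up G v e j u' → G.Adj u u'

/-- **ThB.** Clean chains exist.  (Uses `S_ThA`, `S_FL`, `S_FC`.)

Proof. ThA for `4 N` (`4 (4 N) + 6 = 16 N + 6`) gives a chain `v₁, e₁` of length `4 N` and, by choice, `p u ≤ 4 N` and `κ u`.
FAR: if `p u + 4 ≤ p u'` then `u ~ u'` iff `κ u = true`: with `i = p u + 1`, `j = p u + 2`, `k = p u + 3`, all `< p u' ≤ 4 N`:
`u'` is `Up` at `i, j, k` and `u` is `Co (κ u)` there: FL resp. FC.  Now take every fourth index again: `v i = v₁ (4 i)`,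
`e s i = e₁ s (4 i)` (`i < N`, `Ch.comp`), `q u = (p u + 3) / 4 ≤ N`: `i < q u` implies `4 i < p u`, `q u < i` implies
`p u < 4 i`; and `q u + 2 ≤ q u'` implies `p u + 4 ≤ p u'` (omega). -/
def S_ThB : Prop := ∀ (N : ℕ) (V : Type) (G : SimpleGraph V) (v : ℕ → V) (e : Bool → ℕ → V),
  Ch G (16 * N + 6) v e → ¬ IMS K401 G Set.univ →
    ∃ (v' : ℕ → V) (e' : Bool → ℕ → V) (q : V → ℕ) (κ : V → Bool), CC G N v' e' q κ

/-! ### clean chains -/

/-- **Q.** The positions of the vertices of the chain.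

Proof. `u = v i`, `i + 1 < n`: if `i < q u` then `Up` at `i` gives `v i ~ v i`.  If `q u < i` then `Co (κ u)` at `i` gives
`κ u = false` (`v i ≁ v i`), at `i + 1` it gives `κ u = true`.  So `q u = i`, and `Co (κ u)` at `i + 1` gives `κ u = true`.
`u = e s i`: if `i < q u` then `Up` at `i` gives `e (!s) i ≁ e s i`.  If `q u < i`: `Co (κ u)` at `i` gives
`κ u = true` from `e (!s) i ~ e s i`, and `κ u = false` from `e s i ≁ e s i`.  If `i + 1 < n`: `v (i + 1) ≁ e s i`, so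
`κ u = false`. -/
def S_Q : Prop := ∀ (V : Type) (G : SimpleGraph V) (n : ℕ) (v : ℕ → V) (e : Bool → ℕ → V)
  (q : V → ℕ) (κ : V → Bool), CC G n v e q κ →
    (∀ i, i + 1 < n → q (v i) = i ∧ κ (v i) = true) ∧ (∀ i < n, ∀ s, q (e s i) = i) ∧
      ∀ i, i + 1 < n → ∀ s, κ (e s i) = false

/-- **Wn.** There is a good place `m`.

Proof. Suppose that there is none: for every `j ≤ t` and `m = m₀ + 16 j` there are `c j ≠ c' j`, both of class `true`,
with positions in `[m - 9, m + 4]`, not adjacent.  For `j ≠ j'` the positions differ by at least `3`, so all of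
`c j, c' j` are adjacent to all of `c j', c' j'` (`far`, from the lower side).  They have positions `≤ n - 6`, so
they are `Co true` at `n - 1` and `n - 2`.  Model of `JP t = JS ![0, 1, 1] t` by single vertices:
`inl none ↦ e false (n - 2)`, `inl (some ⟨1, 0⟩) ↦ e false (n - 1)`, `inl (some ⟨2, 0⟩) ↦ e true (n - 1)`,
`inr (j, false) ↦ c j`, `inr (j, true) ↦ c' j` (`j < t`).  (In `JP t` the non-edges are: `none` and the two leaves;
`(j, false)` and `(j, true)`.)  The vertices are different: positions, resp. `c j ≠ c' j`. -/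
def S_Wn : Prop := ∀ (t : ℕ) (V : Type) (G : SimpleGraph V) (n : ℕ) (v : ℕ → V)
  (e : Bool → ℕ → V) (q : V → ℕ) (κ : V → Bool), CC G n v e q κ → ¬ IMS (JP t) G Set.univ →
    ∀ m₀, 9 ≤ m₀ → m₀ + 16 * t + 10 ≤ n → ∃ m, m₀ ≤ m ∧ m ≤ m₀ + 16 * t ∧ Win G q κ m

/-- **Rt.** The root rule.  (Uses `A0.S_M1`, `S_Q`.)

Proof. Let `a' = e false (n - 2)`, `a = e false (n - 1)`, `w = e true (n - 1)`.  A vertex `x` with `q x + 3 ≤ n` is `Co (κ x)`
at `n - 1` and `n - 2`, and it is none of `a', a, w` (their positions are `n - 2`, `n - 1`, by Q).  M1 with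
`A = T ∪ {a'}`, `B = T'`, `C = {a}`, `D = {w}`, `P = Y`, `Q = Y'`: `A` is connected (`c ~ a'` for `c ∈ T`, `κ c = true`),
`A` touches `B` (`a' ~ c'`), `A`, `B` touch `C`, `D`, `a ~ w`; `a', a, w` are adjacent to no vertex of `Y ∪ Y'`. -/
def S_Rt : Prop := ∀ (V : Type) (G : SimpleGraph V) (n : ℕ) (v : ℕ → V) (e : Bool → ℕ → V)
  (q : V → ℕ) (κ : V → Bool), CC G n v e q κ → 3 ≤ n → ¬ IMS K401 G Set.univ →
    ∀ T T' Y Y' : Set V, Conn G T → Conn G T' → Conn G Y → Conn G Y' →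
      (∀ x ∈ T ∪ T', q x + 3 ≤ n) → (∃ c ∈ T, κ c = true) → (∃ c ∈ T', κ c = true) →
      (∀ y ∈ Y ∪ Y', κ y = false ∧ q y + 3 ≤ n) →
      Disjoint T T' → Disjoint T Y → Disjoint T Y' → Disjoint T' Y → Disjoint T' Y' →
      Disjoint Y Y' → Tch G T Y → ¬ Tch G T' Y → Tch G T' Y' → ¬ Tch G T Y' → ¬ Tch G Y Y' → False

/-- **Pth.** Paths.

Proof. The set of all `z` such that there are `r` and `y` with `y 0 = y₀`, `y r = z`, `y i ∈ Y` (`i ≤ r`) and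
`y i ~ y (i + 1)` (`i < r`) is `Y` (`Conn`).  Take such a sequence with `R (y r)` and `r` minimal.  Then `R (y i)` fails for
`i < r`, and if `y i = y j`, `i < j ≤ r`, then `k ↦ y k` (`k ≤ i`), `y (k + (j - i))` (`k > i`) is shorter. -/
def S_Pth : Prop := ∀ (V : Type) (G : SimpleGraph V) (Y : Set V) (y₀ : V) (R : V → Prop),
  Conn G Y → y₀ ∈ Y → (∃ y ∈ Y, R y) → ∃ (r : ℕ) (y : ℕ → V), y 0 = y₀ ∧ (∀ i ≤ r, y i ∈ Y) ∧
    (∀ i < r, G.Adj (y i) (y (i + 1))) ∧ (∀ i ≤ r, ∀ j ≤ r, y i = y j → i = j) ∧ R (y r) ∧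
      ∀ i < r, ¬ R (y i)

/-- **Seg.** Segments of paths are connected.

Proof. Induction on `b - a` (`Conn.singleton`, `Conn.insert`). -/
def S_Seg : Prop := ∀ (V : Type) (G : SimpleGraph V) (r : ℕ) (y : ℕ → V),
  (∀ i < r, G.Adj (y i) (y (i + 1))) → ∀ a b, a ≤ b → b ≤ r →
    Conn G {x | ∃ i, a ≤ i ∧ i ≤ b ∧ x = y i}

/-- **LH.** Low and high.  (Uses `A0.S_M1`, `S_Q`, `S_Rt`, `S_Pth`, `S_Seg`.)

Proof. Let `y₀ ∈ Y` with `q y₀ + 1 < m`; path `y 0 = y₀, ..., y r` in `Y` from Pth with `R z = (v (m + 1) ~ z)`.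
Since `y r ~ v (m + 1)` and `κ (y r) = false`, `m + 1 ≤ q (y r)` (otherwise `Co false` at `m + 1`), so `y r` is `Up` at
`m - 1` and at `m`.  `y 0` is `Co false` at `m - 1` and `m`.
(i) For both `s` some `y i`, `i ≤ r`, sees `e s m`.  Otherwise let `x` be the smallest index with `y x ~ v (m - 1)`
(`0 < x ≤ r`).  Rt with `T = {v (m - 1)}`, `T' = {v (m + 1)} ∪ {y i | x ≤ i ≤ r}`, `Y = {e s m}`, `Y' = {y i | i < x}`: `T'` is
connected (`v (m + 1) ~ y r`), `v (m - 1) ~ e s m`, `v (m + 1) ≁ e s m`, `y (x - 1) ~ y x`, the `y i`, `i < x`, miss `v (m - 1)`.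
The positions of `v (m - 1)`, `v (m + 1)`, `e s m` are `m - 1`, `m + 1`, `m` and `m + 4 ≤ n`.  (`e s m ≠ y i` by hypothesis.)
(ii) Let `i_s` be the smallest index with `y i_s ~ e s m`, `b = min`, `b' = max` of the two.  `0 < b`, `b' < r`.  A `y i` which sees
`e s m` has position `m` (it is neither `Up` nor `Co false` at `m`), so `y b ~ v (m - 1)`.  Let `x` be the largest index `< b` with
`y x ≁ v (m - 1)` (`x = 0` is possible).  M1 with `A = {v (m - 1)}`, `B = {y i | x < i ≤ b'}`, `C = {e false m}`,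
`D = {e true m}`, `P = {v (m + 1)}`, `Q = {y x}`: `B` touches `A` (at `y b`), `C` and `D` and `Q` (`y x ~ y (x + 1)`);
`v (m + 1) ≁ e s m`, `v (m + 1) ≁ y i` for `i < r`; `y x ≁ v (m - 1)`, `y x ≁ e s m` (`x < b`). -/
def S_LH : Prop := ∀ (V : Type) (G : SimpleGraph V) (n : ℕ) (v : ℕ → V) (e : Bool → ℕ → V)
  (q : V → ℕ) (κ : V → Bool), CC G n v e q κ → ¬ IMS K401 G Set.univ → ∀ m, 1 ≤ m → m + 4 ≤ n →
    ∀ Y : Set V, Conn G Y → (∀ y ∈ Y, κ y = false ∧ q y + 3 ≤ n ∧ ∀ s, y ≠ e s m) →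
      (∃ y ∈ Y, q y + 1 < m) → ¬ ∃ y ∈ Y, G.Adj (v (m + 1)) y

/-! ### components -/

/-- **Cd.** Components.

Proof. The component of `x`: the union of all connected subsets of `X` which contain `x` (or the set of all `z` joined to `x`
by a sequence in `X`).  Two different components `K, K'` do not meet: otherwise `K ∪ K'` is connected (`Conn.union`, or use the
cut version directly), so `K = K'` (`IsComp`: no vertex of `X` is in `nb G K`).  An edge from `x ∈ K` to `y ∈ K'` would put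
`y` into `nb G K`. -/
def S_Cd : Prop := ∀ (V : Type) (G : SimpleGraph V) (X : Set V),
  (∀ x ∈ X, ∃ K, IsComp G X K ∧ x ∈ K) ∧
    ∀ K K', IsComp G X K → IsComp G X K' → K ≠ K' → Disjoint K K' ∧ ¬ Tch G K K'

/-- **In.** The part of `K \ {z}` which contains `x` touches `z`.

Proof. `A` = the component of `K \ {z}` which contains `x` (`S_Cd`).  It is a proper nonempty subset of `K`, so there is an
edge from `A` to `K \ A`; its other end is `z` (an end in `K \ {z}` would be in `nb G A`).  (Uses `S_Cd`.) -/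
def S_In : Prop := ∀ (V : Type) (G : SimpleGraph V) (K : Set V) (x z : V), Conn G K → x ∈ K →
  z ∈ K → x ≠ z → ∃ A ⊆ K, z ∉ A ∧ x ∈ A ∧ Conn G A ∧ ∃ a ∈ A, G.Adj a z

/-- **Hf.** (Uses `S_Rt`, `S_Cd`.)

Proof. Suppose `c ≁ z'`.  Then `c ≠ c'`; Rt with `T = {c}`, `T' = {c'}`, `Y = {z}`, `Y' = {z'}`; `z ≁ z'` because they are in different
components; classes (`κ`) give the disjointness. -/
def S_Hf : Prop := ∀ (V : Type) (G : SimpleGraph V) (n : ℕ) (v : ℕ → V) (e : Bool → ℕ → V)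
  (q : V → ℕ) (κ : V → Bool), CC G n v e q κ → 3 ≤ n → ¬ IMS K401 G Set.univ →
    ∀ m, H4 G (Cs n q κ) (Ls n e q κ m)

/-- **Ht.** (Uses `S_Rt`, `S_Cd`, `S_In`.)

Proof. Suppose `z' ∈ K'` is missed by `c` and `c'`.  Let `x ∈ K`, `c ~ x` (so `x ≠ z`), and `A ⊆ K` from In (`x ∈ A`, `z ∉ A`, `A`
touches `z`); `x' ∈ K'`, `c' ~ x'`, `A' ⊆ K'`.  Rt with `T = {c} ∪ A`, `T' = {c'} ∪ A'`, `Y = {z}`, `Y' = {z'}`: `T` touches `z`; `z ≁ c'`,
`z` and `A'` are in different components, and so on. -/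
def S_Ht : Prop := ∀ (V : Type) (G : SimpleGraph V) (n : ℕ) (v : ℕ → V) (e : Bool → ℕ → V)
  (q : V → ℕ) (κ : V → Bool), CC G n v e q κ → 3 ≤ n → ¬ IMS K401 G Set.univ →
    ∀ m, H3 G (Cs n q κ) (Ls n e q κ m)

/-- **Ne.** `NK` and `TK` are nested.

Proof. `K = K'` is trivial.  If `c ∈ NK K \ NK K'`, `c' ∈ NK K' \ NK K`: `c ~ z ∈ K`, `c' ~ z' ∈ K'`; `c' ≁ z`, so `H4` gives `c ~ z'`,
against `c ∉ NK K'`.  If `c ∈ TK K \ TK K'`, `c' ∈ TK K' \ TK K`: `c' ≁ z ∈ K`, `c ≁ z' ∈ K'`, `c ~ z`, `c' ~ z'`: `H4`. -/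
def S_Ne : Prop := ∀ (V : Type) (G : SimpleGraph V) (C L : Set V), H4 G C L →
  ∀ K K', IsComp G L K → IsComp G L K' →
    (NK G C K ⊆ NK G C K' ∨ NK G C K' ⊆ NK G C K) ∧ (TK G C K ⊆ TK G C K' ∨ TK G C K' ⊆ TK G C K)

/-- **Kz.** The choice of `K*`.  (Uses `S_Ne`.)

Proof. Among the components `K` with `NK K₀ ⊆ NK K` take one with `(TK K).ncard` minimal.  If `TK K ⊆ TK K₀` fails then
`TK K₀ ⊂ TK K` (Ne), against the minimality.  If `NK K ⊂ NK K'` then `K'` was possible, so `TK K' ⊂ TK K` is not true, and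
`TK K ⊆ TK K'` by Ne. -/
def S_Kz : Prop := ∀ (V : Type) [Finite V] (G : SimpleGraph V) (C L : Set V), H4 G C L →
  ∀ K₀, IsComp G L K₀ → ∃ K, IsComp G L K ∧ NK G C K₀ ⊆ NK G C K ∧ TK G C K ⊆ TK G C K₀ ∧
    ∀ K', IsComp G L K' → NK G C K ⊂ NK G C K' → TK G C K ⊆ TK G C K'

/-- **Ky.** `K*` in a clean chain.  (Uses `S_Q`, `S_LH`, `S_Cd`, `S_Hf`, `S_Kz`.)

Proof. `x₀ = e false (m - 2)` is in `Ls` (position `m - 2`, class `false`); `K₀` = its component (Cd); `K` from Kz.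
`v (m - 3) ∈ NK K₀ ⊆ NK K` (`v (m - 3) ~ x₀`; position `m - 3`, class `true`), so some `z ∈ K` sees `v (m - 3)`; if
`q z < m - 3` then `z` is `Co false` at `m - 3`: contradiction; so `m ≤ q z + 3`: f2.  `v (m - 2) ∉ TK K₀` (`v (m - 2) ≁ x₀`),
so `v (m - 2) ∉ TK K`, and some `z ∈ K` misses `v (m - 2)`; `z` is not `Up` at `m - 2`, so `q z ≤ m - 2`, `q z + 1 < m`.  LH
for `Y = K` gives f1. -/
def S_Ky : Prop := ∀ (V : Type) [Finite V] (G : SimpleGraph V) (n : ℕ) (v : ℕ → V)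
  (e : Bool → ℕ → V) (q : V → ℕ) (κ : V → Bool), CC G n v e q κ → ¬ IMS K401 G Set.univ →
    ∀ m, 4 ≤ m → m + 5 ≤ n → ∃ K, KS G n v e q κ m K

/-- **Fa.** The positions around `K*`.  (Uses `S_Q`, `S_Ht`.)

Proof. Facts: for `i < n`: `i < q z` implies `v i ~ z`; for a `z` of class `false` `q z < i` implies `v i ≁ z`.
(1) `c ∈ NK K`, `c ~ z ∈ K`: `v (m + 1) ≁ z` (f1), so `q z ≤ m + 1`.  If `q z + 2 ≤ q c` then `z ≁ c` (`far`, class of `z` is
`false`).  So `q c ≤ q z + 1 ≤ m + 2`.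
(2) `c ∈ Cs`, `c ∉ NK K`: let `z` be as in f2; `c ≁ z`; if `q c + 2 ≤ q z` then `c ~ z` (`far`).  So `q z ≤ q c + 1`.
(3) `NK K' ⊆ NK K`, `z ∈ K'`: `v (m + 1) ∈ Cs` is not in `NK K` (f1), so not in `NK K'`, `v (m + 1) ≁ z`, `q z ≤ m + 1`.
(4) `NK K ⊂ NK K'`, `z ∈ K'`.  Suppose `p = q z`, `p + 6 < m`.  `v (p + 1) ≁ z`, so `v (p + 1) ∉ TK K'`, so `v (p + 1) ∉ TK K` (hT), and
some `z₁ ∈ K` misses `v (p + 1)`: `q z₁ ≤ p + 1`.  `c = v (p + 2)`, `c' = v (p + 3)` are in `Cs` and miss `z` and `z₁` (class `false`,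
lower positions); the vertex of f2 has a position `> p + 3`, so `c, c' ∈ NK K ⊆ NK K'`.  `H3` (Ht) for `K, K'`, `c, c'`, `z₁`, `z`:
contradiction (`K ≠ K'` because `NK K ≠ NK K'`).
(5) `c ∈ BB`: there are `K'` with `NK K ⊂ NK K'` and `z ∈ K'` with `c ≁ z`; `m ≤ q z + 6` by (4); `q c + 2 ≤ q z` would give
`c ~ z`; so `q z ≤ q c + 1`. -/
def S_Fa : Prop := ∀ (V : Type) (G : SimpleGraph V) (n : ℕ) (v : ℕ → V)
  (e : Bool → ℕ → V) (q : V → ℕ) (κ : V → Bool), CC G n v e q κ → ¬ IMS K401 G Set.univ →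
    ∀ m, m + 5 ≤ n → ∀ K, KS G n v e q κ m K →
      (∀ c ∈ NK G (Cs n q κ) K, q c ≤ m + 2) ∧
      (∀ c ∈ Cs n q κ, c ∉ NK G (Cs n q κ) K → m ≤ q c + 4) ∧
      (∀ K', IsComp G (Ls n e q κ m) K' → NK G (Cs n q κ) K' ⊆ NK G (Cs n q κ) K →
        ∀ z ∈ K', q z ≤ m + 1) ∧
      (∀ K', IsComp G (Ls n e q κ m) K' → NK G (Cs n q κ) K ⊂ NK G (Cs n q κ) K' →
        ∀ z ∈ K', m ≤ q z + 6) ∧
      ∀ c ∈ BB G (Cs n q κ) (Ls n e q κ m) K, m ≤ q c + 7

/-! ### the abstract cut -/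

/-- **Pr.** Pairs in `BB`.

Proof. `c ∈ BB` is not in `TK K`: `c ∉ TK K'` for some `K'` with `NK K ⊂ NK K'`, and `TK K ⊆ TK K'`.  `c, c' ∈ NK K`.
CASE 1: no `z ∈ K` is missed by both.  Some `z₁ ∈ K` is missed by `c`, so `c' ~ z₁`; some `z₂ ∈ K` is missed by `c'`,
`c ~ z₂`.  First alternative: let `z ∈ L \ K`, `z ∈ K'` a component (Cd), `K' ≠ K`.  If `c ~ z`, `c' ≁ z`: `H4` for
`(K', K, c, c', z, z₁)` gives `c ~ z₁`: contradiction.  If `c' ~ z`, `c ≁ z`: `H4` for `(K', K, c', c, z, z₂)`.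
CASE 2: `z₀ ∈ K` is missed by both.  (a) For every component `K'` with `NK K ⊂ NK K'` every `y ∈ K'` is seen by `c` or by `c'`:
`H3` for `(K, K', c', c)` and `z₀` (`c' ∈ NK K`, `c ∈ NK K ⊆ NK K'`).  Let `K₁` be a component with `NK K ⊂ NK K₁`, `c ∉ TK K₁`, `y₁ ∈ K₁`,
`c ≁ y₁`, so `c' ~ y₁`; and `K₂`, `y₂` the same for `c'`: `c' ≁ y₂`, `c ~ y₂`.  If `K₁ ≠ K₂`: `H4` for
`(K₁, K₂, c', c, y₁, y₂)` gives `c' ~ y₂`: contradiction.  So `K₁ = K₂` for all choices; second alternative: `c ∈ TK K'` for all other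
`K'` (with `NK K ⊂ NK K'`; `c ∈ Cs`).  Let `z ∈ L \ K₁`, `z ∈ K'`: if `c ~ z`, `c' ≁ z`: `H4` for `(K', K₁, c, c', z, y₁)` gives
`c ~ y₁`; if `c' ~ z`, `c ≁ z`: `H4` for `(K', K₁, c', c, z, y₂)` gives `c' ~ y₂`: contradictions.  (Uses `S_Cd`.) -/
def S_Pr : Prop := ∀ (V : Type) (G : SimpleGraph V) (C L K : Set V), H4 G C L → H3 G C L →
  IsComp G L K → (∀ K', IsComp G L K' → NK G C K ⊂ NK G C K' → TK G C K ⊆ TK G C K') →
    ∀ c ∈ BB G C L K, ∀ c' ∈ BB G C L K, c ≠ c' →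
      ((∀ z ∈ L, z ∉ K → (G.Adj c z ↔ G.Adj c' z)) ∧ ∃ z ∈ K, ¬ (G.Adj c z ↔ G.Adj c' z)) ∨
      ∃ K₁, IsComp G L K₁ ∧ NK G C K ⊂ NK G C K₁ ∧ c ∉ TK G C K₁ ∧
        (∀ K', IsComp G L K' → NK G C K ⊂ NK G C K' → K' ≠ K₁ → c ∈ TK G C K') ∧
        ∀ z ∈ L, z ∉ K₁ → (G.Adj c z ↔ G.Adj c' z)

/-- **Ty.** All pairs in `BB` are of the same type.  (Uses `S_Pr`, `S_Cd`.)

Proof. Suppose that the first alternative fails: `c, c' ∈ BB` and `z₀ ∈ L \ K` with `¬ (c ~ z₀ ↔ c' ~ z₀)`; `c ≠ c'`.  By Pr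
the pair `(c, c')` is of the second kind, with `K₁`; `K₁ ≠ K` because `NK K ⊂ NK K₁`, and `K, K₁` are disjoint (Cd).
CLAIM: every `d ∈ BB` agrees with `c` on `L \ K₁`.  True for `d = c` and `d = c'`.  Otherwise consider the pair `(c, d)`.  Second kind, with
`K₁'`: `K₁' = K₁` because `c ∉ TK K₁` and `c ∉ TK K₁'` (each of them is the only one).  First kind: they agree outside `K` and
differ at some `z ∈ K`.  The pair `(c', d)`: first kind: `c'` and `d` agree outside `K`, so `c` and `c'` agree outside `K`, against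
`z₀`.  Second kind, with `K₁'`: `c', d` agree on `K` (`K` and `K₁'` are disjoint), `c, c'` agree on `K` (disjoint from `K₁`), so `c, d`
agree on `K`: contradiction to `z`. -/
def S_Ty : Prop := ∀ (V : Type) (G : SimpleGraph V) (C L K : Set V), H4 G C L → H3 G C L →
  IsComp G L K → (∀ K', IsComp G L K' → NK G C K ⊂ NK G C K' → TK G C K ⊆ TK G C K') →
    (∀ c ∈ BB G C L K, ∀ c' ∈ BB G C L K, ∀ z ∈ L, z ∉ K → (G.Adj c z ↔ G.Adj c' z)) ∨
    ∃ K₁, IsComp G L K₁ ∧ NK G C K ⊂ NK G C K₁ ∧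
      ∀ c ∈ BB G C L K, ∀ c' ∈ BB G C L K, ∀ z ∈ L, z ∉ K₁ → (G.Adj c z ↔ G.Adj c' z)

/-- **Ab.** The cut.  (Uses `S_Cd`, `S_Ne`, `S_Ty`.)

Proof. LEFT = the union of the components `K'` with `NK K' ⊆ NK K`, `N = NK K`, `B₀ = BB`, RIGHT = the union of the
other components; for them `NK K ⊂ NK K'` (Ne).  Two cases from Ty.
First alternative: `X = LEFT ∪ N`.  Second alternative: `X = LEFT ∪ (N \ B₀)`.  In both cases
`Xᶜ ⊆ RIGHT ∪ (C \ N) ∪ Z ∪ P ∪ B₀` (in the first case without `B₀`), because `C ∪ L ∪ Z ∪ P` is everything and every element of `L`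
is in a component (Cd).  Use `rk_mono`, `rk_union`, `rk_union_right`, `rk_anti`, `rk_comp`, `rk_row`, `rk_col`, `rk_one`,
`rk_card_right` (`Rep/Cut.lean`):
* `rk X P ≤ 2`;
* `rk LEFT (RIGHT ∪ (C \ N) ∪ Z) = 0`: different components do not touch, `NK K' ⊆ N`, and the hypothesis on `Z`;
* `rk (N \ B₀) (RIGHT ∪ (C \ N) ∪ Z) ≤ 1`: complete: `c ∈ N \ B₀` is in `TK K'` for all `K'` with `NK K ⊂ NK K'`;
* first alternative: `rk B₀ RIGHT ≤ 1` (the elements of `B₀` agree on `RIGHT`, so every column is constant: `rk_col`; a vertex of `RIGHT` is not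
  in `K` because `K` is LEFT) and `rk B₀ ((C \ N) ∪ Z) ≤ 1` (complete);
* second alternative: `rk LEFT B₀ ≤ 1` (every row is constant: all elements of `B₀` agree at every `z ∈ LEFT`, `z ∉ K₁`) and
  `rk (N \ B₀) B₀ ≤ 1` (complete).
The sum is at most `8`. -/
def S_Ab : Prop := ∀ (V : Type) [Finite V] (G : SimpleGraph V) (C L Z P K : Set V),
  C ∪ L ∪ Z ∪ P = Set.univ → P.ncard ≤ 2 → H4 G C L → H3 G C L → IsComp G L K →
  (∀ K', IsComp G L K' → NK G C K ⊂ NK G C K' → TK G C K ⊆ TK G C K') →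
  (∀ c ∈ NK G C K, ∀ c' ∈ C, c' ∉ NK G C K → G.Adj c c') →
  (∀ c ∈ BB G C L K, ∀ c' ∈ NK G C K, c' ∉ BB G C L K → G.Adj c' c) →
  (∀ K', IsComp G L K' → NK G C K' ⊆ NK G C K → ∀ z ∈ K', ∀ y ∈ Z, ¬ G.Adj z y) →
  (∀ c ∈ NK G C K, ∀ y ∈ Z, G.Adj c y) →
  ∃ X : Set V, (∀ K', IsComp G L K' → NK G C K' ⊆ NK G C K → K' ⊆ X) ∧
    (∀ x ∈ X, x ∈ NK G C K ∨ ∃ K', IsComp G L K' ∧ NK G C K' ⊆ NK G C K ∧ x ∈ K') ∧
    LK.cr G X ≤ 8

/-- **Fi.** The cut in a clean chain.  (Uses `S_Q`, `S_Cd`, `S_Ne`, `S_Hf`, `S_Ht`, `S_Ky`, `S_Fa`, `S_Ab`.)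

Proof. `K` from Ky, the facts (1)-(5) of Fa.  Ab with `C = Cs n q κ`, `L = Ls n e q κ m`, `Z = Zs n q`,
`P = {e false m, e true m}`, `H4`, `H3` from Hf, Ht.  Hypotheses of Ab:
`c ∈ NK K`, `c' ∈ Cs \ NK K`: `q c ≤ m + 2`, `m ≤ q c' + 4`; if the positions differ by at least `2` then `c ~ c'` by `far`; otherwise
both are in the window `[m - 9, m + 4]`, `c ≠ c'`, and `Win` applies.  `c ∈ BB`, `c' ∈ NK K \ BB`: `m ≤ q c + 7`, `q c ≤ m + 2`, the same
argument.  LEFT against `Zs`: `q z ≤ m + 1`, `q y ≥ n - 2 ≥ q z + 2`, class of `z` is `false`: `far`.  `NK K` against `Zs`: `q c ≤ m + 2`,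
`q y ≥ n - 2`, class `true`.
SIZES.  For `b < m - 6` (`b ≥ 0`): `e false b ∈ Ls` is in a component `K'`, which does not satisfy `NK K ⊂ NK K'` (Fa (4): `m ≤ b + 6`), so
`NK K' ⊆ NK K` (Ne) and `e false b ∈ X`; these are `m - 6 > B` different vertices.  For `m + 2 ≤ b`, `b + 1 < n`: `e false b ∉ X`: its
class is `false`, so it is not in `NK K ⊆ Cs`, and its position is `b > m + 1` (Fa (3)); these are `n - 1 - (m + 2) > B` different
vertices. -/
def S_Fi : Prop := ∀ (V : Type) [Finite V] (G : SimpleGraph V) (n : ℕ) (v : ℕ → V)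
  (e : Bool → ℕ → V) (q : V → ℕ) (κ : V → Bool), CC G n v e q κ → ¬ IMS K401 G Set.univ →
    ∀ m B, Win G q κ m → B + 10 ≤ m → m + B + 10 ≤ n →
      ∃ X : Set V, LK.cr G X ≤ 8 ∧ B < X.ncard ∧ B < Xᶜ.ncard

/-- **CH.** Long chains give balanced cuts of rank at most `8`.  (Uses `S_ThB`, `S_Wn`, `S_Fi`.)

Proof. `N = (B + 10) + 16 t + B + 20`, `n = 16 N + 6`.  ThB gives a clean chain of length `N`; Wn with `m₀ = B + 10`; Fi. -/
def S_CH : Prop := ∀ t B : ℕ, ∃ n : ℕ, ∀ (V : Type) [Finite V] (G : SimpleGraph V),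
  Rep.Fr K401 (JP t) G → ∀ (v : ℕ → V) (e : Bool → ℕ → V), Ch G n v e →
    ∃ X : Set V, LK.cr G X ≤ 8 ∧ B < X.ncard ∧ B < Xᶜ.ncard

/-- **Mp.** For linked graphs there are no long chains.  (Uses `S_CH`.)

Proof. `B = β 8`, `c₀ = 8`, `Rep.link_false`. -/
def S_Mp : Prop := ∀ (t : ℕ) (β : ℕ → ℕ), ∃ c₀ n : ℕ, ∀ (V : Type) [Finite V] (G : SimpleGraph V),
  Rep.Fr K401 (JP t) G → Rep.Link β c₀ G → ∀ (v : ℕ → V) (e : Bool → ℕ → V), ¬ Ch G n v e

end Pool.Agent.MPd439b2.CH
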